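import Pool.Agent.R960.GI.Seq

/-! # An inequality between polynomials on the unit circle -/

set_option autoImplicit false

open Finset Polynomial Filter Topology

namespace Pool.Agent.P8H60.GapLin

open Pool.Agent.R960.GI (s_le s_mul log_small)

/-- simultaneous recurrence -/
lemma recur (Z : Finset ℂ) (hZ : ∀ z ∈ Z, ‖z‖ = 1) (ε : ℝ) (hε : 0 < ε) :
    ∃ p : ℕ, 1 ≤ p ∧ ∀ z ∈ Z, ‖z ^ p - 1‖ ≤ ε := by
  have hK : IsCompact (Set.univ.pi fun _ : Z => Metric.closedBall (0 : ℂ) 1) :=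
    isCompact_univ_pi fun _ => isCompact_closedBall _ _
  obtain ⟨a, _, φ, hφ, hlim⟩ := hK.tendsto_subseq (x := fun k : ℕ => fun z : Z => z.1 ^ k) (by
    intro k
    rw [Set.mem_univ_pi]
    intro z
    rw [mem_closedBall_zero_iff, norm_pow, hZ z.1 z.2, one_pow])
  have hC := hlim.cauchySeq
  rw [Metric.cauchySeq_iff'] at hC
  obtain ⟨N, hN⟩ := hC ε hε
  have h1 := hN (N + 1) (Nat.le_succ N)
  have hlt : φ N < φ (N + 1) := hφ (Nat.lt_succ_self N)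
  refine ⟨φ (N + 1) - φ N, by omega, fun z hz => ?_⟩
  have h2 := (dist_pi_lt_iff hε).1 h1 ⟨z, hz⟩
  simp only [Function.comp, dist_eq_norm] at h2
  have h3 : z ^ φ (N + 1) - z ^ φ N = z ^ φ N * (z ^ (φ (N + 1) - φ N) - 1) := by
    rw [mul_sub, mul_one, ← pow_add]
    congr 2
    omega
  rw [h3, norm_mul, norm_pow, hZ z hz, one_pow, one_mul] at h2
  exact h2.le

lemma away (Z : Finset ℂ) (hZ : ∀ z ∈ Z, z ≠ 1) : ∃ δ : ℝ, 0 < δ ∧ ∀ z ∈ Z, δ ≤ ‖1 - z‖ := by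
  rcases Z.eq_empty_or_nonempty with h | h
  · exact ⟨1, one_pos, fun z hz => by simp [h] at hz⟩
  · obtain ⟨w, hw, hmin⟩ := Z.exists_min_image (fun z => ‖1 - z‖) h
    exact ⟨‖1 - w‖, norm_pos_iff.2 (sub_ne_zero.2 (hZ w hw).symm), hmin⟩

/-- the circle lemma -/
theorem circle (A : ℝ[X]) (hA : A ≠ 0) (V η : ℝ) (hV : 0 ≤ V) (hη : 0 < η) :
    ∃ p m : ℕ, ∃ C1 κ : ℝ, 1 ≤ p ∧ 1 ≤ m ∧ 0 ≤ C1 ∧ 0 ≤ κ ∧
      κ * (V * (1 + Real.log m) ^ 2) ≤ η ∧ κ ≤ η ∧ ∀ z : ℂ, ‖z‖ = 1 →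
        ‖∑ i ∈ range p, z ^ i‖ ^ 2 ≤
          C1 * ‖aeval z A‖ ^ 2 + η + κ * ‖∑ i ∈ range m, z ^ i‖ ^ 2 := by
  classical
  set A' : ℂ[X] := A.map (algebraMap ℝ ℂ) with hA'
  have hA'0 : A' ≠ 0 := by
    rw [hA']
    exact (Polynomial.map_ne_zero_iff (algebraMap ℝ ℂ).injective).2 hA
  set Z : Finset ℂ := A'.roots.toFinset.filter (fun z => ‖z‖ = 1 ∧ z ≠ 1) with hZ
  have hmem : ∀ z : ℂ, ‖z‖ = 1 → aeval z A = 0 → z = 1 ∨ z ∈ Z := by
    intro z h1 h2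
    by_cases h3 : z = 1
    · exact Or.inl h3
    · refine Or.inr ?_
      rw [hZ, mem_filter, Multiset.mem_toFinset, mem_roots hA'0]
      refine ⟨?_, h1, h3⟩
      rw [IsRoot, hA', eval_map_algebraMap]
      exact h2
  obtain ⟨δ, hδ, hδZ⟩ := away Z fun z hz => (mem_filter.1 hz).2.2
  obtain ⟨p, hp, hpZ⟩ := recur Z (fun z hz => (mem_filter.1 hz).2.1) (δ * (Real.sqrt η / 2))
    (by positivity)
  have hp1 : (1 : ℝ) ≤ p := by exact_mod_cast hp
  obtain ⟨m, hm, hm1⟩ := ((log_small (4 * p ^ 2 * (V + 1) / η)).and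
    (eventually_ge_atTop 1)).exists
  have hm1' : (1 : ℝ) ≤ m := by exact_mod_cast hm1
  set κ : ℝ := 4 * p ^ 2 / m ^ 2 with hκ
  have hκ0 : 0 ≤ κ := by positivity
  have hl : 0 ≤ Real.log m := Real.log_nonneg hm1'
  have hkey : κ * ((V + 1) * (1 + Real.log m) ^ 2) ≤ η := by
    rw [hκ, div_mul_eq_mul_div, div_le_iff₀ (by positivity)]
    have h1 : 4 * (p : ℝ) ^ 2 * (V + 1) / η * (1 + Real.log m) ^ 2 =
        4 * p ^ 2 * ((V + 1) * (1 + Real.log m) ^ 2) / η := by ring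
    rw [h1, div_le_iff₀ hη] at hm
    have h2 : (m : ℝ) * η ≤ η * m ^ 2 := by
      rw [mul_comm]
      apply mul_le_mul_of_nonneg_left _ hη.le
      nlinarith
    linarith
  have hsq1 : (1 : ℝ) ≤ (1 + Real.log m) ^ 2 := one_le_pow₀ (by linarith)
  have hc1 : κ * (V * (1 + Real.log m) ^ 2) ≤ η := by
    refine le_trans ?_ hkey
    apply mul_le_mul_of_nonneg_left _ hκ0
    nlinarith
  have hc2 : κ ≤ η := by
    refine le_trans ?_ hkey
    apply le_mul_of_one_le_right hκ0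
    nlinarith
  -- the bad set
  set K : Set ℂ := {z | ‖z‖ = 1 ∧ η + κ * ‖∑ i ∈ range m, z ^ i‖ ^ 2 ≤
    ‖∑ i ∈ range p, z ^ i‖ ^ 2} with hK
  have hcont : ∀ q : ℕ, Continuous fun z : ℂ => ‖∑ i ∈ range q, z ^ i‖ ^ 2 := by
    intro q
    fun_prop
  have hKc : IsCompact K := by
    have h1 : IsClosed K := by
      rw [hK]
      apply IsClosed.inter
      · exact isClosed_eq continuous_norm continuous_const
      · exact isClosed_le (continuous_const.add (continuous_const.mul (hcont m))) (hcont p)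
    refine (isCompact_closedBall (0 : ℂ) 1).of_isClosed_subset h1 ?_
    intro z hz
    rw [mem_closedBall_zero_iff]
    exact hz.1.le
  have hKA : ∀ z ∈ K, aeval z A ≠ 0 := by
    intro z hz h0
    rcases hmem z hz.1 h0 with h | h
    · subst h
      have h2 := hz.2
      simp only [one_pow, sum_const, card_range, nsmul_eq_mul, mul_one, Complex.norm_natCast] at h2
      have h3 : κ * (m : ℝ) ^ 2 = 4 * p ^ 2 := by
        rw [hκ]
        field_simp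
      rw [h3] at h2
      nlinarith
    · have h1 := hpZ z h
      have h2 := hδZ z h
      have h3 := s_mul z p
      rw [norm_sub_rev] at h1
      have h4 : ‖∑ i ∈ range p, z ^ i‖ * δ ≤ (Real.sqrt η / 2) * δ := by
        calc ‖∑ i ∈ range p, z ^ i‖ * δ ≤ ‖∑ i ∈ range p, z ^ i‖ * ‖1 - z‖ :=
              mul_le_mul_of_nonneg_left h2 (norm_nonneg _)
          _ = ‖1 - z ^ p‖ := h3
          _ ≤ _ := h1
          _ = _ := by ring
      have h5 : ‖∑ i ∈ range p, z ^ i‖ ≤ Real.sqrt η / 2 := le_of_mul_le_mul_right h4 hδ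
      have h6 : ‖∑ i ∈ range p, z ^ i‖ ^ 2 ≤ (Real.sqrt η / 2) ^ 2 :=
        pow_le_pow_left₀ (norm_nonneg _) h5 2
      have h7 : (Real.sqrt η / 2) ^ 2 = η / 4 := by
        rw [div_pow, Real.sq_sqrt hη.le]; norm_num
      have h8 := hz.2
      have h9 : 0 ≤ κ * ‖∑ i ∈ range m, z ^ i‖ ^ 2 := by positivity
      rw [h7] at h6
      linarith
  rcases K.eq_empty_or_nonempty with hE | hE
  · refine ⟨p, m, 0, κ, hp, hm1, le_rfl, hκ0, hc1, hc2, fun z hz => ?_⟩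
    have h1 : z ∉ K := by rw [hE]; exact Set.notMem_empty z
    have h2 : ¬ (η + κ * ‖∑ i ∈ range m, z ^ i‖ ^ 2 ≤ ‖∑ i ∈ range p, z ^ i‖ ^ 2) :=
      fun h => h1 ⟨hz, h⟩
    push Not at h2
    linarith
  · obtain ⟨z0, hz0, hmin⟩ := hKc.exists_isMinOn hE
      (f := fun z : ℂ => ‖aeval z A‖ ^ 2) (by
        have : Continuous fun z : ℂ => ‖aeval z A‖ ^ 2 := by
          have h : Continuous fun z : ℂ => aeval z A := Polynomial.continuous_aeval A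
          exact (h.norm.pow 2)
        exact this.continuousOn)
    have hpos : 0 < ‖aeval z0 A‖ ^ 2 := by
      have := norm_pos_iff.2 (hKA z0 hz0)
      positivity
    refine ⟨p, m, p ^ 2 / ‖aeval z0 A‖ ^ 2, κ, hp, hm1, by positivity, hκ0, hc1, hc2,
      fun z hz => ?_⟩
    by_cases h1 : z ∈ K
    · have h2 : ‖aeval z0 A‖ ^ 2 ≤ ‖aeval z A‖ ^ 2 := hmin h1
      have h3 : ‖∑ i ∈ range p, z ^ i‖ ^ 2 ≤ (p : ℝ) ^ 2 :=
        pow_le_pow_left₀ (norm_nonneg _) (s_le hz p) 2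
      have h4 : (p : ℝ) ^ 2 ≤ p ^ 2 / ‖aeval z0 A‖ ^ 2 * ‖aeval z A‖ ^ 2 := by
        rw [div_mul_eq_mul_div, le_div_iff₀ hpos]
        exact mul_le_mul_of_nonneg_left h2 (by positivity)
      have h9 : 0 ≤ κ * ‖∑ i ∈ range m, z ^ i‖ ^ 2 := by positivity
      linarith
    · have h2 : ¬ (η + κ * ‖∑ i ∈ range m, z ^ i‖ ^ 2 ≤ ‖∑ i ∈ range p, z ^ i‖ ^ 2) :=
        fun h => h1 ⟨hz, h⟩
      push Not at h2
      have h3 : 0 ≤ (p : ℝ) ^ 2 / ‖aeval z0 A‖ ^ 2 * ‖aeval z A‖ ^ 2 := by positivity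
      linarith

end Pool.Agent.P8H60.GapLin
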