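import Pool.Agent.H177R3.LatC

/-! # Points which are almost invariant under a shift: the deterministic inequality -/

set_option autoImplicit false

open Finset

namespace Pool.Agent.P8H60.GapLin

open H177.Lat (kI far_pairs cs_card)

/-- near and far pairs -/
lemma near_far (I K : Finset ℕ) (hK : K ⊆ I) (y : ℕ → ℝ) (R : ℕ) (hR : 2 ≤ R) (r : ℝ → ℝ) (D : ℝ)
    (hD : 0 ≤ D) (hr1 : ∀ x, |r x| ≤ 1) (hrD : ∀ x, |r x| * x ^ 2 ≤ D) :
    ∑ m ∈ K, ∑ n ∈ K, r (y m - y n) ≤
      ∑ m ∈ K, (kI I y R m : ℝ) + D * (16 / (R : ℝ) * ∑ n ∈ I, (kI I y 1 n : ℝ)) := by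
  classical
  have hR0 : (0 : ℝ) < R := by positivity
  have h1 : ∀ m ∈ K, ∑ n ∈ K, r (y m - y n) ≤ (kI I y R m : ℝ) +
      D * ∑ n ∈ I.filter (fun n => (R : ℝ) < |y m - y n|), 1 / (y m - y n) ^ 2 := by
    intro m _
    rw [← Finset.sum_filter_add_sum_filter_not K (fun n => (R : ℝ) < |y m - y n|), add_comm]
    apply add_le_add
    · have h2 : ∑ n ∈ K.filter (fun n => ¬ (R : ℝ) < |y m - y n|), r (y m - y n) ≤
          ∑ n ∈ K.filter (fun n => ¬ (R : ℝ) < |y m - y n|), (1 : ℝ) :=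
        Finset.sum_le_sum fun n _ => (le_abs_self _).trans (hr1 _)
      rw [Finset.sum_const, nsmul_eq_mul, mul_one] at h2
      refine h2.trans ?_
      unfold kI
      have h3 : K.filter (fun n => ¬ (R : ℝ) < |y m - y n|) ⊆
          I.filter (fun n' => |y m - y n'| ≤ (R : ℝ)) := by
        intro n hn
        rw [mem_filter] at *
        exact ⟨hK hn.1, not_lt.1 hn.2⟩
      exact_mod_cast Finset.card_le_card h3
    · rw [Finset.mul_sum]
      have h2 : ∑ n ∈ K.filter (fun n => (R : ℝ) < |y m - y n|), r (y m - y n) ≤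
          ∑ n ∈ K.filter (fun n => (R : ℝ) < |y m - y n|), D * (1 / (y m - y n) ^ 2) := by
        refine Finset.sum_le_sum fun n hn => ?_
        have h2 := (mem_filter.1 hn).2
        have h3 : 0 < (y m - y n) ^ 2 := by
          rw [← sq_abs]
          have : 0 < |y m - y n| := hR0.trans h2
          positivity
        rw [mul_one_div, le_div_iff₀ h3]
        refine le_trans ?_ (hrD (y m - y n))
        exact mul_le_mul_of_nonneg_right (le_abs_self _) h3.le
      refine h2.trans ?_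
      apply Finset.sum_le_sum_of_subset_of_nonneg
      · exact Finset.filter_subset_filter _ hK
      · intro n _ _
        positivity
  refine (Finset.sum_le_sum h1).trans ?_
  rw [Finset.sum_add_distrib, ← Finset.mul_sum]
  have h2 : ∑ m ∈ K, ∑ n ∈ I.filter (fun n => (R : ℝ) < |y m - y n|), 1 / (y m - y n) ^ 2 ≤
      ∑ m ∈ I, ∑ n ∈ I.filter (fun n => (R : ℝ) < |y m - y n|), 1 / (y m - y n) ^ 2 :=
    Finset.sum_le_sum_of_subset_of_nonneg hK fun m _ _ =>
      Finset.sum_nonneg fun n _ => by positivity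
  have h3 := h2.trans (far_pairs I y R hR)
  have h4 := mul_le_mul_of_nonneg_left h3 hD
  linarith

lemma kI_sum_le (I : Finset ℕ) (y : ℕ → ℝ) (ρ C M : ℝ)
    (h : ∑ n ∈ I, (kI I y ρ n : ℝ) ^ 2 ≤ C * M) : ∑ n ∈ I, (kI I y ρ n : ℝ) ≤ C * M := by
  refine le_trans (Finset.sum_le_sum fun n _ => ?_) h
  have h3 : ((kI I y ρ n : ℕ) : ℝ) ≤ ((kI I y ρ n ^ 2 : ℕ) : ℝ) := by
    exact_mod_cast Nat.le_self_pow (by norm_num) _
  push_cast at h3
  exact h3

lemma sum_Ioc_shift (f : ℕ → ℝ) (a b p : ℕ) (hp : a + p ≤ b) :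
    ∑ m ∈ Ioc (a + p) b, f m = ∑ n ∈ Ioc a (b - p), f (n + p) := by
  symm
  refine Finset.sum_nbij' (fun n => n + p) (fun m => m - p) ?_ ?_ ?_ ?_ ?_
  · intro n hn; rw [mem_Ioc] at *; omega
  · intro n hn; rw [mem_Ioc] at *; omega
  · intro n hn; rw [mem_Ioc] at *; omega
  · intro n hn; rw [mem_Ioc] at *; omega
  · intro n _; rfl

/-- **the deterministic inequality** -/
theorem core2 (a b p R : ℕ) (hR : 2 ≤ R) (κ D Λ C1 C' CR M c : ℝ) (hκ : 0 < κ) (hD : 0 ≤ D)
    (hC' : 0 < C') (hCR : 0 < CR) (hM : 0 < M) (hc : 0 < c)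
    (y : ℕ → ℝ) (r : ℝ → ℝ) (hr1 : ∀ x, |r x| ≤ 1) (hrD : ∀ x, |r x| * x ^ 2 ≤ D)
    (hrL : ∀ x z, |r x - r z| ≤ Λ * |x - z|)
    (hpsd : ∀ (s : Finset ℕ) (u : ℕ → ℝ), 0 ≤ ∑ i ∈ s, ∑ j ∈ s, r (u i - u j))
    (hcs : ∀ (s t : Finset ℕ) (u v : ℕ → ℝ), (∑ i ∈ s, ∑ j ∈ t, r (u i - v j)) ^ 2 ≤
      (∑ i ∈ s, ∑ j ∈ s, r (u i - u j)) * (∑ i ∈ t, ∑ j ∈ t, r (v i - v j)))
    (h1 : ∑ n ∈ Ioc a b, (kI (Ioc a b) y 1 n : ℝ) ^ 2 ≤ C1 * M)
    (hk : ∑ n ∈ Ioc a b, (kI (Ioc a b) y R n : ℝ) ^ 2 ≤ CR * M)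
    (hA0 : ∑ n ∈ Ioc a b, ∑ n' ∈ Ioc a b, r (y n - y n') ≤ C' * M)
    (hR1 : 80 * D * C1 / R ≤ κ / 8) (hR2 : 16 * D * C1 / R ≤ κ ^ 2 / (1024 * C'))
    (hc1 : Λ ^ 2 * (c * CR) ≤ κ ^ 2 / 64) (hc2 : c * CR ≤ (κ ^ 2 / (1024 * C')) ^ 2)
    (hp : a + p ≤ b) (hpc : (p : ℝ) ≤ c * M)
    (hF : κ * M ≤ ∑ n ∈ Ioc a b, ∑ n' ∈ Ioc a b, (r (y n - y n') - r (y n - y n' - p))) :
    c * M ≤ ∑ n ∈ Ioc a (b - p), min 1 ((y (n + p) - y n - p) ^ 2) := by
  classical
  by_contra hcon
  push Not at hcon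
  set I := Ioc a b with hI
  set J := Ioc a (b - p) with hJ
  set e : ℕ → ℝ := fun n => y (n + p) - y n - p with he
  set E := ∑ n ∈ J, min 1 (e n ^ 2) with hE
  have hR0 : (0 : ℝ) < R := by positivity
  have hJI : J ⊆ I := by
    intro n hn
    rw [hJ, mem_Ioc] at hn
    rw [hI, mem_Ioc]
    omega
  have hmin0 : ∀ n, 0 ≤ min 1 (e n ^ 2) := fun n => le_min zero_le_one (sq_nonneg _)
  set g : ℝ → ℝ := fun v => ∑ n ∈ I, r (y n - v) with hg
  -- sums over small sets of indices
  have hsmall : ∀ K : Finset ℕ, K ⊆ I → (K.card : ℝ) ≤ c * M → ∀ τ : ℝ,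
      |∑ m ∈ K, g (y m + τ)| ≤ κ * M / 20 := by
    intro K hK hKc τ
    have q1 := near_far I K hK y R hR r D hD hr1 hrD
    have q2 := cs_card I K hK (fun n => kI I y R n) (CR * M) hk
    have q3 : ∑ m ∈ K, (kI I y R m : ℝ) ≤ κ ^ 2 / (1024 * C') * M := by
      have q4 : (∑ m ∈ K, (kI I y R m : ℝ)) ^ 2 ≤ (κ ^ 2 / (1024 * C') * M) ^ 2 := by
        calc (∑ m ∈ K, (kI I y R m : ℝ)) ^ 2 ≤ (K.card : ℝ) * (CR * M) := q2
          _ ≤ c * M * (CR * M) := mul_le_mul_of_nonneg_right hKc (by positivity)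
          _ = c * CR * M ^ 2 := by ring
          _ ≤ (κ ^ 2 / (1024 * C')) ^ 2 * M ^ 2 := mul_le_mul_of_nonneg_right hc2 (sq_nonneg _)
          _ = _ := by ring
      exact le_of_sq_le_sq q4 (by positivity)
    have q5 : D * (16 / (R : ℝ) * ∑ n ∈ I, (kI I y 1 n : ℝ)) ≤ κ ^ 2 / (1024 * C') * M := by
      calc D * (16 / (R : ℝ) * ∑ n ∈ I, (kI I y 1 n : ℝ)) ≤ D * (16 / (R : ℝ) * (C1 * M)) := by
            apply mul_le_mul_of_nonneg_left _ hD
            exact mul_le_mul_of_nonneg_left (kI_sum_le I y 1 C1 M h1) (by positivity)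
        _ = 16 * D * C1 / R * M := by ring
        _ ≤ _ := mul_le_mul_of_nonneg_right hR2 hM.le
    have q6 : ∑ m ∈ K, ∑ n ∈ K, r (y m - y n) ≤ κ ^ 2 / (512 * C') * M := by
      refine q1.trans ((add_le_add q3 q5).trans (le_of_eq ?_))
      field_simp
      ring
    have q7 := hcs I K y (fun m => y m + τ)
    have q8 : ∑ i ∈ K, ∑ j ∈ K, r (y i + τ - (y j + τ)) = ∑ i ∈ K, ∑ j ∈ K, r (y i - y j) :=
      Finset.sum_congr rfl fun i _ => Finset.sum_congr rfl fun j _ => by
        congr 1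
        ring
    rw [q8, Finset.sum_comm] at q7
    have q9 : (∑ m ∈ K, g (y m + τ)) ^ 2 ≤ (κ * M / 20) ^ 2 := by
      calc (∑ m ∈ K, g (y m + τ)) ^ 2 ≤
          (∑ i ∈ I, ∑ j ∈ I, r (y i - y j)) * (∑ i ∈ K, ∑ j ∈ K, r (y i - y j)) := q7
        _ ≤ (C' * M) * (κ ^ 2 / (512 * C') * M) :=
            mul_le_mul hA0 q6 (hpsd K y) (by positivity)
        _ = κ ^ 2 * M ^ 2 / 512 := by field_simp
        _ ≤ (κ * M / 20) ^ 2 := by
            have : 0 ≤ κ ^ 2 * M ^ 2 := by positivity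
            nlinarith
    exact abs_le_of_sq_le_sq q9 (by positivity)
  -- decomposition
  have hS : ∑ n ∈ I, ∑ n' ∈ I, (r (y n - y n') - r (y n - y n' - p)) =
      ∑ n' ∈ I, g (y n') - ∑ n' ∈ I, g (y n' + p) := by
    rw [Finset.sum_comm, ← Finset.sum_sub_distrib]
    refine Finset.sum_congr rfl fun n' _ => ?_
    rw [hg]
    simp only
    rw [← Finset.sum_sub_distrib]
    refine Finset.sum_congr rfl fun n _ => ?_
    rw [sub_sub (y n)]
  have hA : ∑ n' ∈ I, g (y n') = ∑ m ∈ Ioc a (a + p), g (y m) + ∑ n ∈ J, g (y (n + p)) := by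
    rw [hJ, ← sum_Ioc_shift (fun m => g (y m)) a b p hp, hI]
    exact (Finset.sum_Ioc_consecutive (fun m => g (y m)) (Nat.le_add_right a p) hp).symm
  have hX : ∑ n' ∈ I, g (y n' + p) =
      ∑ n' ∈ J, g (y n' + p) + ∑ m ∈ Ioc (b - p) b, g (y m + p) := by
    rw [hJ, hI]
    exact (Finset.sum_Ioc_consecutive (fun m => g (y m + p)) (by omega : a ≤ b - p)
      (Nat.sub_le b p)).symm
  set G := J.filter (fun n => |e n| ≤ 1) with hG
  set B := J.filter (fun n => ¬ |e n| ≤ 1) with hB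
  have hsplit1 := Finset.sum_filter_add_sum_filter_not J (fun n => |e n| ≤ 1)
    (fun n => g (y (n + p)))
  have hsplit2 := Finset.sum_filter_add_sum_filter_not J (fun n => |e n| ≤ 1)
    (fun n => g (y n + p))
  rw [← hG, ← hB] at hsplit1 hsplit2
  have hBc : (B.card : ℝ) ≤ E := by
    have q1 : (B.card : ℝ) = ∑ n ∈ B, (1 : ℝ) := by rw [Finset.sum_const, nsmul_eq_mul, mul_one]
    rw [q1, hE]
    calc ∑ n ∈ B, (1 : ℝ) ≤ ∑ n ∈ B, min 1 (e n ^ 2) := by
          refine Finset.sum_le_sum fun n hn => ?_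
          have q2 := (mem_filter.1 hn).2
          push Not at q2
          apply le_min le_rfl
          rw [← sq_abs]
          nlinarith
      _ ≤ _ := Finset.sum_le_sum_of_subset_of_nonneg (Finset.filter_subset _ _)
          fun n _ _ => hmin0 n
  have hBcM : (B.card : ℝ) ≤ c * M := hBc.trans hcon.le
  -- the four small terms
  have t1 : |∑ m ∈ Ioc a (a + p), g (y m)| ≤ κ * M / 20 := by
    have q := hsmall (Ioc a (a + p)) (by
      intro n hn
      rw [mem_Ioc] at hn
      rw [hI, mem_Ioc]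
      omega) (by
      rw [Nat.card_Ioc]
      have : a + p - a = p := by omega
      rw [this]
      exact hpc) 0
    simpa using q
  have t2 : |∑ m ∈ Ioc (b - p) b, g (y m + p)| ≤ κ * M / 20 := by
    refine hsmall (Ioc (b - p) b) (by
      intro n hn
      rw [mem_Ioc] at hn
      rw [hI, mem_Ioc]
      omega) (by
      rw [Nat.card_Ioc]
      have : b - (b - p) = p := by omega
      rw [this]
      exact hpc) p
  have t3 : |∑ n ∈ B, g (y n + p)| ≤ κ * M / 20 :=
    hsmall B ((Finset.filter_subset _ _).trans hJI) hBcM p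
  have t4 : |∑ n ∈ B, g (y (n + p))| ≤ κ * M / 20 := by
    have q := hsmall (B.image (fun n => n + p)) (by
      intro m hm
      rw [mem_image] at hm
      obtain ⟨n, hn, rfl⟩ := hm
      have := (mem_filter.1 hn).1
      rw [hJ, mem_Ioc] at this
      rw [hI, mem_Ioc]
      omega) (by
      rw [Finset.card_image_of_injective _ (fun x z h => by simpa using h)]
      exact hBcM) 0
    rw [Finset.sum_image (fun x _ z _ h => by simpa using h)] at q
    simpa using q
  -- the good indices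
  have t5 : |∑ n ∈ G, g (y (n + p)) - ∑ n ∈ G, g (y n + p)| ≤ κ * M / 4 := by
    rw [← Finset.sum_sub_distrib]
    refine (Finset.abs_sum_le_sum_abs _ _).trans ?_
    set far : ℕ → ℝ := fun m => ∑ n ∈ I.filter (fun n => (R : ℝ) < |y m - y n|),
      1 / (y m - y n) ^ 2 with hfar
    have hfar0 : ∀ m, 0 ≤ far m := fun m => Finset.sum_nonneg fun n _ => by positivity
    have q1 : ∀ n' ∈ G, |g (y (n' + p)) - g (y n' + p)| ≤
        Λ * (|e n'| * (kI I y R (n' + p) : ℝ)) + 5 * D * far (n' + p) := by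
      intro n' hn'
      have he1 := (mem_filter.1 hn').2
      set m := n' + p with hm
      rw [hg]
      simp only
      rw [← Finset.sum_sub_distrib]
      refine (Finset.abs_sum_le_sum_abs _ _).trans ?_
      rw [← Finset.sum_filter_add_sum_filter_not I (fun n => (R : ℝ) < |y m - y n|), add_comm]
      have hem : y n' + p = y m - e n' := by
        rw [he, hm]
        ring
      apply add_le_add
      · have q2 : ∀ n ∈ I.filter (fun n => ¬ (R : ℝ) < |y m - y n|),
            |r (y n - y m) - r (y n - (y n' + p))| ≤ Λ * |e n'| := by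
          intro n _
          refine (hrL _ _).trans (le_of_eq ?_)
          rw [hem]
          have : y n - y m - (y n - (y m - e n')) = -e n' := by ring
          rw [this, abs_neg]
        refine (Finset.sum_le_sum q2).trans ?_
        rw [Finset.sum_const, nsmul_eq_mul]
        unfold kI
        simp only [not_lt]
        apply le_of_eq
        ring
      · have q2 : ∀ n ∈ I.filter (fun n => (R : ℝ) < |y m - y n|),
            |r (y n - y m) - r (y n - (y n' + p))| ≤ 5 * D * (1 / (y m - y n) ^ 2) := by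
          intro n hn
          have q3 := (mem_filter.1 hn).2
          have hR2' : (2 : ℝ) ≤ R := by exact_mod_cast hR
          set w := y n - y m with hw
          have hwabs : |y m - y n| = |w| := by rw [hw, abs_sub_comm]
          have hwsq : (y m - y n) ^ 2 = w ^ 2 := by rw [hw]; ring
          rw [hwabs] at q3
          have hw2 : 2 < |w| := lt_of_le_of_lt hR2' q3
          have hwpos : 0 < w ^ 2 := by rw [← sq_abs]; positivity
          have e1 : y n - (y n' + p) = w + e n' := by rw [hem, hw]; ring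
          rw [e1, hwsq]
          have e2 : |w| / 2 ≤ |w + e n'| := by
            have := abs_sub_abs_le_abs_sub w (-e n')
            rw [abs_neg, sub_neg_eq_add] at this
            linarith
          have e3 : w ^ 2 / 4 ≤ (w + e n') ^ 2 := by
            rw [← sq_abs w, ← sq_abs (w + e n')]
            have := pow_le_pow_left₀ (by positivity : 0 ≤ |w| / 2) e2 2
            calc |w| ^ 2 / 4 = (|w| / 2) ^ 2 := by ring
              _ ≤ _ := this
          have e4 : |r w| ≤ D / w ^ 2 := by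
            rw [le_div_iff₀ hwpos]
            exact hrD w
          have e5 : |r (w + e n')| ≤ 4 * D / w ^ 2 := by
            rw [le_div_iff₀ hwpos]
            have e6 := hrD (w + e n')
            have e7 := mul_le_mul_of_nonneg_left e3 (abs_nonneg (r (w + e n')))
            linarith
          calc |r w - r (w + e n')| ≤ |r w| + |r (w + e n')| := abs_sub _ _
            _ ≤ D / w ^ 2 + 4 * D / w ^ 2 := add_le_add e4 e5
            _ = 5 * D * (1 / w ^ 2) := by ring
        refine (Finset.sum_le_sum q2).trans ?_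
        rw [← Finset.mul_sum]
    refine (Finset.sum_le_sum q1).trans ?_
    rw [Finset.sum_add_distrib, ← Finset.mul_sum, ← Finset.mul_sum]
    have hGI : ∀ f : ℕ → ℝ, (∀ m, 0 ≤ f m) → ∑ n ∈ G, f (n + p) ≤ ∑ m ∈ I, f m := by
      intro f hf
      calc ∑ n ∈ G, f (n + p) ≤ ∑ n ∈ J, f (n + p) :=
            Finset.sum_le_sum_of_subset_of_nonneg (Finset.filter_subset _ _) fun n _ _ => hf _
        _ = ∑ m ∈ Ioc (a + p) b, f m := (sum_Ioc_shift f a b p hp).symm
        _ ≤ ∑ m ∈ I, f m := by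
            apply Finset.sum_le_sum_of_subset_of_nonneg
            · intro n hn
              rw [mem_Ioc] at hn
              rw [hI, mem_Ioc]
              omega
            · intro n _ _
              exact hf n
    have q2 : Λ * ∑ n ∈ G, |e n| * (kI I y R (n + p) : ℝ) ≤ κ * M / 8 := by
      have q3 := Finset.sum_mul_sq_le_sq_mul_sq G (fun n => |e n|)
        (fun n => (kI I y R (n + p) : ℝ))
      have q4 : ∑ n ∈ G, |e n| ^ 2 ≤ c * M := by
        refine le_trans ?_ hcon.le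
        rw [hE]
        calc ∑ n ∈ G, |e n| ^ 2 ≤ ∑ n ∈ G, min 1 (e n ^ 2) := by
              refine Finset.sum_le_sum fun n hn => ?_
              have q5 := (mem_filter.1 hn).2
              apply le_min
              · exact pow_le_one₀ (abs_nonneg _) q5
              · rw [sq_abs]
          _ ≤ _ := Finset.sum_le_sum_of_subset_of_nonneg (Finset.filter_subset _ _)
              fun n _ _ => hmin0 n
      have q5 : ∑ n ∈ G, (kI I y R (n + p) : ℝ) ^ 2 ≤ CR * M :=
        (hGI (fun m => (kI I y R m : ℝ) ^ 2) fun m => sq_nonneg _).trans hk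
      have q6 : (Λ * ∑ n ∈ G, |e n| * (kI I y R (n + p) : ℝ)) ^ 2 ≤ (κ * M / 8) ^ 2 := by
        rw [mul_pow]
        calc Λ ^ 2 * (∑ n ∈ G, |e n| * (kI I y R (n + p) : ℝ)) ^ 2 ≤
            Λ ^ 2 * ((c * M) * (CR * M)) := by
              apply mul_le_mul_of_nonneg_left _ (sq_nonneg _)
              refine q3.trans (mul_le_mul q4 q5 (Finset.sum_nonneg fun _ _ => sq_nonneg _)
                (by positivity))
          _ = Λ ^ 2 * (c * CR) * M ^ 2 := by ring
          _ ≤ κ ^ 2 / 64 * M ^ 2 := mul_le_mul_of_nonneg_right hc1 (sq_nonneg _)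
          _ = _ := by ring
      exact le_of_sq_le_sq q6 (by positivity)
    have q3 : 5 * D * ∑ n ∈ G, far (n + p) ≤ κ * M / 8 := by
      have q4 := (hGI far hfar0).trans (far_pairs I y R hR)
      calc 5 * D * ∑ n ∈ G, far (n + p) ≤ 5 * D * (16 / (R : ℝ) * (C1 * M)) := by
            apply mul_le_mul_of_nonneg_left _ (by positivity)
            refine q4.trans ?_
            exact mul_le_mul_of_nonneg_left (kI_sum_le I y 1 C1 M h1) (by positivity)
        _ = 80 * D * C1 / R * M := by ring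
        _ ≤ κ / 8 * M := mul_le_mul_of_nonneg_right hR1 hM.le
        _ = _ := by ring
    linarith
  rw [hS, hA, hX] at hF
  have hκM : 0 < κ * M := by positivity
  rw [abs_le] at t1 t2 t3 t4 t5
  linarith [t1.2, t2.1, t3.1, t4.2, t5.2]

end Pool.Agent.P8H60.GapLin
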