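import Mathlib

/-! # Fourth moments from exponential tails -/

set_option autoImplicit false

open Finset Filter

namespace Pool.Agent.P8H60.GapLin

lemma four_le (m : ℕ) : (m : ℝ) ^ 4 ≤ ∑ k ∈ range m, ((k : ℝ) + 1) ^ 4 := by
  cases m with
  | zero => simp
  | succ m =>
    rw [Finset.sum_range_succ]
    have : 0 ≤ ∑ k ∈ range m, ((k : ℝ) + 1) ^ 4 := Finset.sum_nonneg fun k _ => by positivity
    push_cast
    linarith

lemma summ (c : ℝ) (hc : 0 < c) : Summable fun k : ℕ => ((k : ℝ) + 1) ^ 4 * Real.exp (-(c * k)) := by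
  have h1 := Real.summable_pow_mul_exp_neg_nat_mul 4 hc
  have h2 := (summable_nat_add_iff 1).2 h1
  have h3 := h2.mul_left (Real.exp c)
  refine h3.congr fun k => ?_
  push_cast
  have e : Real.exp (-(c * k)) = Real.exp c * Real.exp (-c * ((k : ℝ) + 1)) := by
    rw [← Real.exp_add]
    congr 1
    ring
  rw [e]
  ring

/-- fourth moments from exponential tails -/
theorem layer (c : ℝ) (hc : 0 < c) (k0 : ℕ) : ∃ K : ℝ, 0 < K ∧ ∀ (f : ℕ → ℝ) (N : ℕ),
    (∀ n, 0 ≤ f n) →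
    (∀ k : ℕ, k0 ≤ k → (((Icc 1 N).filter (fun n => (k : ℝ) ≤ f n)).card : ℝ) ≤
      N * Real.exp (-(c * k))) →
    ∑ n ∈ Icc 1 N, f n ^ 4 ≤ K * N := by
  classical
  set S := ∑' k : ℕ, ((k : ℝ) + 1) ^ 4 * Real.exp (-(c * k)) with hS
  have hS0 : 0 ≤ S := tsum_nonneg fun k => by positivity
  refine ⟨∑ k ∈ range k0, ((k : ℝ) + 1) ^ 4 + S + 1, by
    have : 0 ≤ ∑ k ∈ range k0, ((k : ℝ) + 1) ^ 4 := Finset.sum_nonneg fun k _ => by positivity
    linarith, fun f N hf h => ?_⟩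
  have hN : (0 : ℝ) ≤ N := Nat.cast_nonneg N
  obtain ⟨Km, hKm⟩ : ∃ Km : ℕ, ∀ n ∈ Icc 1 N, ⌊f n⌋₊ + 1 ≤ Km :=
    ⟨(Icc 1 N).sup (fun n => ⌊f n⌋₊ + 1), fun n hn => Finset.le_sup (f := fun n => ⌊f n⌋₊ + 1) hn⟩
  have h1 : ∀ n ∈ Icc 1 N, f n ^ 4 ≤
      ∑ k ∈ range Km, if (k : ℝ) ≤ f n then ((k : ℝ) + 1) ^ 4 else 0 := by
    intro n hn
    have h2 : f n ≤ ((⌊f n⌋₊ + 1 : ℕ) : ℝ) := by
      push_cast
      exact (Nat.lt_floor_add_one _).le
    have h3 : f n ^ 4 ≤ ((⌊f n⌋₊ + 1 : ℕ) : ℝ) ^ 4 := pow_le_pow_left₀ (hf n) h2 4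
    refine h3.trans ((four_le _).trans ?_)
    rw [← Finset.sum_filter]
    apply Finset.sum_le_sum_of_subset_of_nonneg
    · intro k hk
      rw [mem_range] at hk
      rw [mem_filter, mem_range]
      refine ⟨lt_of_lt_of_le hk (hKm n hn), ?_⟩
      have h4 : k ≤ ⌊f n⌋₊ := by omega
      exact (Nat.le_floor_iff (hf n)).1 h4
    · intro k _ _
      positivity
  refine (Finset.sum_le_sum h1).trans ?_
  rw [Finset.sum_comm]
  have h2 : ∀ k ∈ range Km, ∑ n ∈ Icc 1 N, (if (k : ℝ) ≤ f n then ((k : ℝ) + 1) ^ 4 else 0) ≤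
      (if k < k0 then ((k : ℝ) + 1) ^ 4 else 0) * N +
        ((k : ℝ) + 1) ^ 4 * Real.exp (-(c * k)) * N := by
    intro k _
    rw [← Finset.sum_filter, Finset.sum_const, nsmul_eq_mul]
    split_ifs with hk
    · have h3 : (((Icc 1 N).filter (fun n => (k : ℝ) ≤ f n)).card : ℝ) ≤ N := by
        have := Finset.card_filter_le (Icc 1 N) (fun n => (k : ℝ) ≤ f n)
        rw [Nat.card_Icc, Nat.add_sub_cancel] at this
        exact_mod_cast this
      have h4 : 0 ≤ ((k : ℝ) + 1) ^ 4 * Real.exp (-(c * k)) * N := by positivity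
      have h5 : (((Icc 1 N).filter (fun n => (k : ℝ) ≤ f n)).card : ℝ) * ((k : ℝ) + 1) ^ 4 ≤
          N * ((k : ℝ) + 1) ^ 4 := mul_le_mul_of_nonneg_right h3 (by positivity)
      linarith
    · have h3 := h k (not_lt.1 hk)
      have h5 : (((Icc 1 N).filter (fun n => (k : ℝ) ≤ f n)).card : ℝ) * ((k : ℝ) + 1) ^ 4 ≤
          N * Real.exp (-(c * k)) * ((k : ℝ) + 1) ^ 4 :=
        mul_le_mul_of_nonneg_right h3 (by positivity)
      rw [zero_mul, zero_add]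
      refine h5.trans (le_of_eq ?_)
      ring
  refine (Finset.sum_le_sum h2).trans ?_
  rw [Finset.sum_add_distrib, ← Finset.sum_mul, ← Finset.sum_mul]
  have h3 : ∑ k ∈ range Km, (if k < k0 then ((k : ℝ) + 1) ^ 4 else 0) ≤
      ∑ k ∈ range k0, ((k : ℝ) + 1) ^ 4 := by
    rw [← Finset.sum_filter]
    apply Finset.sum_le_sum_of_subset_of_nonneg
    · intro k hk
      rw [mem_filter] at hk
      exact mem_range.2 hk.2
    · intro k _ _
      positivity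
  have h4 : ∑ k ∈ range Km, ((k : ℝ) + 1) ^ 4 * Real.exp (-(c * k)) ≤ S :=
    (summ c hc).sum_le_tsum _ fun k _ => by positivity
  have h5 := mul_le_mul_of_nonneg_right h3 hN
  have h6 := mul_le_mul_of_nonneg_right h4 hN
  linarith

end Pool.Agent.P8H60.GapLin
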