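import Pool.Agent.R960.GI.Seq
import Pool.Agent.R846.NC.Abs2

/-! # Mean squares of linear forms of a sequence as averages over roots of unity -/

set_option autoImplicit false

open Finset Polynomial Filter Topology

namespace Pool.Agent.P8H60.GapLin

open Pool.Agent.R960.GI
open Pool.Agent.R846.NC (LogGrowth SmallVar growth_bound log_sq_small)

/-- the polynomial `∑ a_j X^{d-j}` -/
noncomputable def rp (d : ℕ) (a : ℕ → ℝ) : ℝ[X] := ∑ j ∈ range (d + 1), C (a j) * X ^ (d - j)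

lemma rp_deg (d : ℕ) (a : ℕ → ℝ) : (rp d a).natDegree ≤ d := by
  unfold rp
  apply natDegree_sum_le_of_forall_le
  intro j _
  exact (natDegree_C_mul_X_pow_le _ _).trans (Nat.sub_le _ _)

lemma rp_coeff (d : ℕ) (a : ℕ → ℝ) (j : ℕ) (hj : j ≤ d) : (rp d a).coeff (d - j) = a j := by
  unfold rp
  rw [finsetSum_coeff]
  simp only [coeff_C_mul_X_pow]
  rw [Finset.sum_eq_single j]
  · rw [if_pos rfl]
  · intro i hi hij
    rw [mem_range] at hi
    rw [if_neg]
    omega
  · intro h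
    exact absurd (mem_range.2 (by omega)) h

lemma rp_ne (d : ℕ) (a : ℕ → ℝ) (h : ∃ j, j ≤ d ∧ a j ≠ 0) : rp d a ≠ 0 := by
  obtain ⟨j, hj, ha⟩ := h
  intro h0
  apply ha
  rw [← rp_coeff d a j hj, h0, coeff_zero]

lemma rp_one_eval (p : ℕ) (hp : 1 ≤ p) (z : ℂ) :
    aeval z (rp (p - 1) fun _ => 1) = ∑ i ∈ range p, z ^ i := by
  unfold rp
  have e : p - 1 + 1 = p := by omega
  rw [e, map_sum, ← Finset.sum_range_reflect (fun i => z ^ i) p]
  refine Finset.sum_congr rfl fun i _ => ?_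
  simp

lemma rp_mul_coeff (d : ℕ) (a : ℕ → ℝ) (f : ℝ[X]) (k : ℕ) :
    (rp d a * f).coeff k = ∑ j ∈ range (d + 1), a j *
      (if d - j ≤ k then f.coeff (k - (d - j)) else 0) := by
  unfold rp
  rw [Finset.sum_mul, finsetSum_coeff]
  refine Finset.sum_congr rfl fun j _ => ?_
  rw [mul_assoc, coeff_C_mul, coeff_X_pow_mul']

/-- linear forms -/
noncomputable def lf (x : ℕ → ℝ) (d : ℕ) (a : ℕ → ℝ) (n : ℕ) : ℝ :=
  ∑ j ∈ range (d + 1), a j * x (n + j)

/-- the comparison, quantitative form -/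
lemma pars_aux (x : ℕ → ℝ) (d : ℕ) (a : ℕ → ℝ) (N L : ℕ) (hL : N + d < L) (B : ℝ)
    (hB : ∀ n, 1 ≤ n → n ≤ N + d → |x n| ≤ B) (hB0 : 0 ≤ B) :
    |∑ k ∈ range L, (rp d a * fp x N).coeff k ^ 2 - ∑ n ∈ Icc 1 N, lf x d a n ^ 2| ≤
      (2 * d + 1) * ((∑ j ∈ range (d + 1), |a j|) * B) ^ 2 := by
  classical
  set A1 := ∑ j ∈ range (d + 1), |a j| with hA1
  have hA10 : 0 ≤ A1 := Finset.sum_nonneg fun _ _ => abs_nonneg _
  set c : ℕ → ℝ := fun k => (rp d a * fp x N).coeff k with hc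
  set D : ℝ := (A1 * B) ^ 2 with hD
  have hD0 : 0 ≤ D := sq_nonneg _
  have hcb : ∀ k, |c k| ≤ A1 * B := by
    intro k
    rw [hc]
    simp only
    rw [rp_mul_coeff, hA1, Finset.sum_mul]
    refine (Finset.abs_sum_le_sum_abs _ _).trans (Finset.sum_le_sum fun j _ => ?_)
    rw [abs_mul]
    apply mul_le_mul_of_nonneg_left _ (abs_nonneg _)
    split_ifs with h1
    · rw [fp_coeff]
      split_ifs with h2
      · exact hB _ h2.1 (by omega)
      · rw [abs_zero]; exact hB0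
    · rw [abs_zero]; exact hB0
  have hsb : ∀ n, 1 ≤ n → n ≤ N → |lf x d a n| ≤ A1 * B := by
    intro n h1 h2
    unfold lf
    rw [hA1, Finset.sum_mul]
    refine (Finset.abs_sum_le_sum_abs _ _).trans (Finset.sum_le_sum fun j hj => ?_)
    rw [mem_range] at hj
    rw [abs_mul]
    exact mul_le_mul_of_nonneg_left (hB _ (by omega) (by omega)) (abs_nonneg _)
  have hcD : ∀ k, c k ^ 2 ≤ D := by
    intro k
    rw [← sq_abs]
    exact pow_le_pow_left₀ (abs_nonneg _) (hcb k) 2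
  have hsD : ∀ n, 1 ≤ n → n ≤ N → lf x d a n ^ 2 ≤ D := by
    intro n h1 h2
    rw [← sq_abs]
    exact pow_le_pow_left₀ (abs_nonneg _) (hsb n h1 h2) 2
  -- the coefficients vanish beyond `N + d`
  have hz : ∀ k, N + d < k → c k = 0 := by
    intro k hk
    apply coeff_eq_zero_of_natDegree_lt
    refine lt_of_le_of_lt natDegree_mul_le ?_
    have h1 := rp_deg d a
    have h2 := fp_deg x N
    omega
  have hsum1 : ∑ k ∈ range L, c k ^ 2 = ∑ k ∈ range (d + 1 + N), c k ^ 2 := by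
    symm
    apply Finset.sum_subset
    · intro k hk
      rw [mem_range] at *
      omega
    · intro k _ hk
      rw [mem_range] at hk
      rw [hz k (by omega)]
      norm_num
  have hmatch : ∀ n, 1 ≤ n → n + d ≤ N → c (n + d) = lf x d a n := by
    intro n h1 h2
    rw [hc]
    simp only
    rw [rp_mul_coeff]
    unfold lf
    refine Finset.sum_congr rfl fun j hj => ?_
    rw [mem_range] at hj
    rw [if_pos (by omega), fp_coeff, if_pos (by omega)]
    congr 2
    omega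
  have hicc : ∑ n ∈ Icc 1 N, lf x d a n ^ 2 = ∑ k ∈ range N, lf x d a (k + 1) ^ 2 := by
    have e : Icc 1 N = Ico 1 (N + 1) := by
      ext k
      rw [mem_Icc, mem_Ico]
      omega
    rw [e, Finset.sum_Ico_eq_sum_range]
    have e2 : N + 1 - 1 = N := by omega
    rw [e2]
    exact Finset.sum_congr rfl fun k _ => by rw [add_comm]
  have e0 : ∑ k ∈ range L, (rp d a * fp x N).coeff k ^ 2 = ∑ k ∈ range L, c k ^ 2 := rfl
  rw [e0, hsum1, Finset.sum_range_add, hicc, add_sub_assoc, ← Finset.sum_sub_distrib]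
  have h1 : |∑ k ∈ range (d + 1), c k ^ 2| ≤ (d + 1) * D := by
    rw [abs_of_nonneg (Finset.sum_nonneg fun _ _ => sq_nonneg _)]
    refine (Finset.sum_le_sum fun k _ => hcD k).trans ?_
    rw [Finset.sum_const, card_range, nsmul_eq_mul]
    push_cast
    exact le_rfl
  have h2 : |∑ k ∈ range N, (c (d + 1 + k) ^ 2 - lf x d a (k + 1) ^ 2)| ≤ d * D := by
    have h3 : ∀ k ∈ range N, |c (d + 1 + k) ^ 2 - lf x d a (k + 1) ^ 2| ≤
        if N ≤ k + d then D else 0 := by
      intro k hk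
      rw [mem_range] at hk
      split_ifs with h
      · have g1 := hcD (d + 1 + k)
        have g2 := hsD (k + 1) (by omega) (by omega)
        have g3 := sq_nonneg (c (d + 1 + k))
        have g4 := sq_nonneg (lf x d a (k + 1))
        rw [abs_le]
        constructor <;> linarith
      · have e : d + 1 + k = k + 1 + d := by ring
        rw [e, hmatch (k + 1) (by omega) (by omega), sub_self, abs_zero]
    refine (Finset.abs_sum_le_sum_abs _ _).trans ((Finset.sum_le_sum h3).trans ?_)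
    rw [← Finset.sum_filter, Finset.sum_const, nsmul_eq_mul]
    apply mul_le_mul_of_nonneg_right _ hD0
    have h4 : (range N).filter (fun k => N ≤ k + d) ⊆ Ico (N - d) N := by
      intro k hk
      rw [mem_filter, mem_range] at hk
      rw [mem_Ico]
      omega
    have h5 := Finset.card_le_card h4
    rw [Nat.card_Ico] at h5
    have h6 : ((range N).filter (fun k => N ≤ k + d)).card ≤ d := by omega
    exact_mod_cast h6
  calc |∑ k ∈ range (d + 1), c k ^ 2 + ∑ k ∈ range N, (c (d + 1 + k) ^ 2 - lf x d a (k + 1) ^ 2)|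
      ≤ |∑ k ∈ range (d + 1), c k ^ 2| +
        |∑ k ∈ range N, (c (d + 1 + k) ^ 2 - lf x d a (k + 1) ^ 2)| := abs_add_le _ _
    _ ≤ (d + 1) * D + d * D := add_le_add h1 h2
    _ = (2 * d + 1) * D := by ring

/-- the average over the roots of unity -/
noncomputable def av (x : ℕ → ℝ) (N L : ℕ) (q : ℂ → ℝ) : ℝ :=
  (1 / L : ℝ) * ∑ j ∈ range L, q (ze L ^ j) * ‖aeval (ze L ^ j) (fp x N)‖ ^ 2

lemma av_mono (x : ℕ → ℝ) (N L : ℕ) (hL : 0 < L) {q r : ℂ → ℝ} (h : ∀ z : ℂ, ‖z‖ = 1 → q z ≤ r z) :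
    av x N L q ≤ av x N L r := by
  unfold av
  apply mul_le_mul_of_nonneg_left _ (by positivity)
  refine Finset.sum_le_sum fun j _ => ?_
  exact mul_le_mul_of_nonneg_right (h _ (ze_norm hL j)) (by positivity)

/-- **transference** -/
theorem pars {x : ℕ → ℝ} (hg : LogGrowth x) (d : ℕ) (a : ℕ → ℝ) (ε : ℝ) (hε : 0 < ε) :
    ∀ᶠ N : ℕ in atTop, ∀ L : ℕ, N + d < L →
      |av x N L (fun z => ‖aeval z (rp d a)‖ ^ 2) - ∑ n ∈ Icc 1 N, lf x d a n ^ 2| ≤ ε * N := by
  obtain ⟨C, hC, hg⟩ := hg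
  set A1 := ∑ j ∈ range (d + 1), |a j| with hA1
  have hA10 : 0 ≤ A1 := Finset.sum_nonneg fun _ _ => abs_nonneg _
  filter_upwards [log_sq_small C d (ε / ((2 * d + 1) * A1 ^ 2 + 1)) (by positivity)] with N hN L hL
  set B := C * (1 + Real.log ((N + 2 * d : ℕ) : ℝ)) with hB
  have hB0 : 0 ≤ B := by
    rw [hB]
    have := Real.log_natCast_nonneg (N + 2 * d)
    positivity
  have h1 := pars_aux x d a N L hL B
    (fun n h1 h2 => growth_bound hC hg N d n h1 (by omega)) hB0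
  have hL0 : (0 : ℝ) < L := by
    have : 0 < L := by omega
    exact_mod_cast this
  have h2 : av x N L (fun z => ‖aeval z (rp d a)‖ ^ 2) =
      ∑ k ∈ range L, (rp d a * fp x N).coeff k ^ 2 := by
    unfold av
    have e : ∀ j ∈ range L, ‖aeval (ze L ^ j) (rp d a)‖ ^ 2 * ‖aeval (ze L ^ j) (fp x N)‖ ^ 2 =
        ‖aeval (ze L ^ j) (rp d a * fp x N)‖ ^ 2 := by
      intro j _
      rw [map_mul, norm_mul, mul_pow]
    rw [Finset.sum_congr rfl e, parseval (rp d a * fp x N)]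
    · field_simp
    · refine lt_of_le_of_lt natDegree_mul_le ?_
      have h1 := rp_deg d a
      have h2 := fp_deg x N
      omega
  rw [h2]
  refine h1.trans ?_
  rw [← hA1, mul_pow]
  have h3 : (0 : ℝ) < (2 * d + 1) * A1 ^ 2 + 1 := by positivity
  have h4 : (2 * (d : ℝ) + 1) * A1 ^ 2 ≤ (2 * d + 1) * A1 ^ 2 + 1 := by linarith
  calc (2 * (d : ℝ) + 1) * (A1 ^ 2 * B ^ 2) = ((2 * d + 1) * A1 ^ 2) * B ^ 2 := by ring
    _ ≤ ((2 * d + 1) * A1 ^ 2 + 1) * (ε / ((2 * d + 1) * A1 ^ 2 + 1) * N) :=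
        mul_le_mul h4 hN (sq_nonneg _) h3.le
    _ = ε * N := by field_simp

end Pool.Agent.P8H60.GapLin
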