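import Pool.Agent.P8H60.GapLin.Circle
import Pool.Agent.P8H60.GapLin.Pars

/-! # Non-degeneracy of linear forms of a sequence whose sums of `p` terms do not degenerate -/

set_option autoImplicit false

open Finset Polynomial Filter Topology

namespace Pool.Agent.P8H60.GapLin

open Pool.Agent.R960.GI
open Pool.Agent.R846.NC (LogGrowth SmallVar growth_bound log_sq_small)

/-- the sums of `p` consecutive terms have mean square at least `c`, for every `p` -/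
def LowerVar (x : ℕ → ℝ) (c : ℝ) : Prop := ∀ p : ℕ, 1 ≤ p → ∀ᶠ N : ℕ in atTop,
  c * N ≤ ∑ n ∈ Icc 1 N, (∑ i ∈ range p, x (n + i)) ^ 2

lemma lf_one (x : ℕ → ℝ) (p : ℕ) (hp : 1 ≤ p) (n : ℕ) :
    lf x (p - 1) (fun _ => 1) n = ∑ i ∈ range p, x (n + i) := by
  unfold lf
  have e : p - 1 + 1 = p := by omega
  rw [e]
  simp only [one_mul]

lemma av_lin (x : ℕ → ℝ) (N L : ℕ) (c1 c2 c3 : ℝ) (q r : ℂ → ℝ) :
    av x N L (fun z => c1 * q z + c2 + c3 * r z) =
      c1 * av x N L q + c2 * av x N L (fun _ => 1) + c3 * av x N L r := by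
  unfold av
  simp only [Finset.mul_sum]
  rw [← Finset.sum_add_distrib, ← Finset.sum_add_distrib]
  refine Finset.sum_congr rfl fun j _ => ?_
  ring

/-- no linear relation, for a fixed vector of coefficients -/
theorem form_pos {x : ℕ → ℝ} {V c0 : ℝ} (hg : LogGrowth x) (hV0 : 0 ≤ V) (hv : SmallVar x V)
    (hc0 : 0 < c0) (hl : LowerVar x c0) (d : ℕ) (a : ℕ → ℝ) (ha : ∃ j, j ≤ d ∧ a j ≠ 0) :
    ∃ c : ℝ, 0 < c ∧ ∀ᶠ N : ℕ in atTop, c * N ≤ ∑ n ∈ Icc 1 N, lf x d a n ^ 2 := by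
  set η : ℝ := c0 / (4 * (V + 1)) with hη
  have hη0 : 0 < η := by positivity
  have hηV : η * V + η = c0 / 4 := by
    rw [hη]
    field_simp
  obtain ⟨p, m, C1, κ, hp, hm, hC1, hκ0, hk1, hk2, hcirc⟩ :=
    circle (rp d a) (rp_ne d a ha) V η hV0 hη0
  set ε : ℝ := c0 / (4 * (1 + C1 + 2 * η)) with hε
  have hε0 : 0 < ε := by positivity
  have hεs : ε * (1 + C1 + 2 * η) = c0 / 4 := by
    rw [hε]
    field_simp
  refine ⟨c0 / (4 * (C1 + 1)), by positivity, ?_⟩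
  filter_upwards [pars hg d a ε hε0, pars hg (p - 1) (fun _ => 1) ε hε0,
    pars hg (m - 1) (fun _ => 1) ε hε0, pars hg 0 (fun _ => 1) ε hε0, hl p hp, hv m hm,
    hv 1 le_rfl] with N h1 h2 h3 h4 h5 h6 h7
  set L := N + d + p + m + 1 with hL
  have hL0 : 0 < L := by omega
  have g1 := h1 L (by omega)
  have g2 := h2 L (by omega)
  have g3 := h3 L (by omega)
  have g4 := h4 L (by omega)
  have hN : (0 : ℝ) ≤ N := Nat.cast_nonneg N
  have e2 : ∀ z : ℂ, ‖aeval z (rp (p - 1) fun _ => 1)‖ ^ 2 = ‖∑ i ∈ range p, z ^ i‖ ^ 2 := by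
    intro z
    rw [rp_one_eval p hp]
  have e3 : ∀ z : ℂ, ‖aeval z (rp (m - 1) fun _ => 1)‖ ^ 2 = ‖∑ i ∈ range m, z ^ i‖ ^ 2 := by
    intro z
    rw [rp_one_eval m hm]
  have e4 : ∀ z : ℂ, ‖aeval z (rp 0 fun _ => 1)‖ ^ 2 = 1 := by
    intro z
    have := rp_one_eval 1 le_rfl z
    simp only [Nat.sub_self] at this
    rw [this]
    simp
  have s2 : ∑ n ∈ Icc 1 N, lf x (p - 1) (fun _ => 1) n ^ 2 =
      ∑ n ∈ Icc 1 N, (∑ i ∈ range p, x (n + i)) ^ 2 :=
    Finset.sum_congr rfl fun n _ => by rw [lf_one x p hp]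
  have s3 : ∑ n ∈ Icc 1 N, lf x (m - 1) (fun _ => 1) n ^ 2 =
      ∑ n ∈ Icc 1 N, (∑ i ∈ range m, x (n + i)) ^ 2 :=
    Finset.sum_congr rfl fun n _ => by rw [lf_one x m hm]
  have s4 : ∑ n ∈ Icc 1 N, lf x 0 (fun _ => 1) n ^ 2 =
      ∑ n ∈ Icc 1 N, (∑ i ∈ range 1, x (n + i)) ^ 2 :=
    Finset.sum_congr rfl fun n _ => by
      have := lf_one x 1 le_rfl n
      simp only [Nat.sub_self] at this
      rw [this]
  simp only [e2] at g2
  simp only [e3] at g3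
  simp only [e4] at g4
  rw [s2] at g2
  rw [s3] at g3
  rw [s4] at g4
  have hmain := av_mono x N L hL0 hcirc
  have hlin : av x N L (fun z => C1 * ‖aeval z (rp d a)‖ ^ 2 + η +
      κ * ‖∑ i ∈ range m, z ^ i‖ ^ 2) = C1 * av x N L (fun z => ‖aeval z (rp d a)‖ ^ 2) +
      η * av x N L (fun _ => 1) + κ * av x N L (fun z => ‖∑ i ∈ range m, z ^ i‖ ^ 2) := by
    exact av_lin x N L C1 η κ _ _
  rw [hlin] at hmain
  rw [Nat.cast_one, Real.log_one, add_zero, one_pow, mul_one] at h7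
  have hl' : (1 : ℝ) ≤ (1 + Real.log m) ^ 2 :=
    one_le_pow₀ (by linarith [Real.log_natCast_nonneg m])
  set SA := ∑ n ∈ Icc 1 N, lf x d a n ^ 2 with hSA
  have hSA0 : 0 ≤ SA := Finset.sum_nonneg fun _ _ => sq_nonneg _
  have b1 := (abs_le.1 g1).2
  have b2 := (abs_le.1 g2).1
  have b3 := (abs_le.1 g3).2
  have b4 := (abs_le.1 g4).2
  have q1 : C1 * av x N L (fun z => ‖aeval z (rp d a)‖ ^ 2) ≤ C1 * (SA + ε * N) :=
    mul_le_mul_of_nonneg_left (by linarith) hC1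
  have q2 : η * av x N L (fun _ => 1) ≤ η * (V * N + ε * N) :=
    mul_le_mul_of_nonneg_left (by linarith) hη0.le
  have q3 : κ * av x N L (fun z => ‖∑ i ∈ range m, z ^ i‖ ^ 2) ≤
      κ * (V * (1 + Real.log m) ^ 2 * N + ε * N) :=
    mul_le_mul_of_nonneg_left (by linarith) hκ0
  have q4 : κ * (V * (1 + Real.log m) ^ 2 * N + ε * N) ≤ η * N + η * (ε * N) := by
    have r1 : κ * (V * (1 + Real.log m) ^ 2) * N ≤ η * N := mul_le_mul_of_nonneg_right hk1 hN
    have r2 : κ * (ε * N) ≤ η * (ε * N) := mul_le_mul_of_nonneg_right hk2 (by positivity)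
    have r3 : κ * (V * (1 + Real.log m) ^ 2 * N + ε * N) =
        κ * (V * (1 + Real.log m) ^ 2) * N + κ * (ε * N) := by ring
    rw [r3]
    linarith
  have q5 : c0 * N - ε * N ≤ C1 * SA + C1 * (ε * N) + η * (V * N) + η * N + 2 * (η * (ε * N)) := by
    have r1 : C1 * (SA + ε * N) = C1 * SA + C1 * (ε * N) := by ring
    have r2 : η * (V * N + ε * N) = η * (V * N) + η * (ε * N) := by ring
    linarith
  have q6 : ε * N * (1 + C1 + 2 * η) = c0 / 4 * N := by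
    rw [← hεs]
    ring
  have q7 : η * (V * N) + η * N = c0 / 4 * N := by
    rw [← hηV]
    ring
  have q8 : c0 / 2 * N ≤ C1 * SA := by nlinarith
  have q9 : c0 / 2 * N ≤ (C1 + 1) * SA := by nlinarith
  rw [div_mul_eq_mul_div, div_le_iff₀ (by positivity)]
  nlinarith

end Pool.Agent.P8H60.GapLin
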