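import Pool.Agent.H177R3.LatB
import Pool.Agent.H345R2.A2.Smooth

/-! # The kernel of the shift argument -/

set_option autoImplicit false

open Finset MeasureTheory

namespace Pool.Agent.P8H60.GapLin

open H177.Lat (tri KK tri_shift tri_shift_integrable KK_zero KK_ne KK_le KK_sq KK_nonneg tri_abs
  tri_nonneg tri_zero tri_lip tri_cont)
open H370.A2 (RR)

/-- the Fourier side: a triangle around `1/2` -/
noncomputable def tt (α : ℝ) : ℝ := tri (1 / 4) (α - 1 / 2)

/-- the kernel -/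
noncomputable def rk (x : ℝ) : ℝ := ∫ α, tt α * Real.cos (2 * Real.pi * α * x)

lemma tt_int {g : ℝ → ℝ} (hg : Continuous g) : Integrable (fun α => tt α * g α) :=
  tri_shift_integrable (by norm_num) (1 / 2) hg

lemma tt_nonneg (α : ℝ) : 0 ≤ tt α := tri_nonneg _ _

lemma rk_eq (x : ℝ) : rk x = Real.cos (Real.pi * x) * KK (1 / 4) x := by
  have h := tri_shift (e := 1 / 4) (by norm_num) (1 / 2) x
  have e : 2 * Real.pi * (1 / 2) * x = Real.pi * x := by ring
  rw [e] at h
  exact h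

lemma rk_abs_le (x : ℝ) : |rk x| ≤ KK (1 / 4) x := by
  rw [rk_eq, abs_mul, abs_of_nonneg (KK_nonneg (by norm_num) x)]
  exact mul_le_of_le_one_left (KK_nonneg (by norm_num) x) (Real.abs_cos_le_one _)

lemma rk_one (x : ℝ) : |rk x| ≤ 1 :=
  (rk_abs_le x).trans ((KK_le (by norm_num) x).trans (by norm_num))

lemma rk_sq (x : ℝ) : |rk x| * x ^ 2 ≤ 4 := by
  have h1 := KK_sq (e := 1 / 4) (by norm_num) x
  have h2 := mul_le_mul_of_nonneg_right (rk_abs_le x) (sq_nonneg x)
  refine h2.trans (h1.trans (by norm_num))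

lemma rk_neg (x : ℝ) : rk (-x) = rk x := by
  unfold rk
  refine integral_congr_ae (Filter.Eventually.of_forall fun α => ?_)
  show tt α * Real.cos (2 * Real.pi * α * -x) = tt α * Real.cos (2 * Real.pi * α * x)
  rw [mul_neg, Real.cos_neg]

lemma rk_lip (x z : ℝ) : |rk x - rk z| ≤ 1 * |x - z| := by
  unfold rk
  rw [← integral_sub (tt_int (by fun_prop)) (tt_int (by fun_prop))]
  have h1 : ∀ α : ℝ, |tt α * Real.cos (2 * Real.pi * α * x) - tt α * Real.cos (2 * Real.pi * α * z)|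
      ≤ 2 * Real.pi * |x - z| * (tt α * |α|) := by
    intro α
    rw [← mul_sub, abs_mul, abs_of_nonneg (tt_nonneg α)]
    have h2 := Real.abs_cos_sub_cos_le (2 * Real.pi * α * x) (2 * Real.pi * α * z)
    have h3 : 2 * Real.pi * α * x - 2 * Real.pi * α * z = 2 * Real.pi * (α * (x - z)) := by ring
    rw [h3, abs_mul (2 * Real.pi), abs_mul α, abs_of_pos (by positivity : 0 < 2 * Real.pi)] at h2
    calc tt α * |Real.cos (2 * Real.pi * α * x) - Real.cos (2 * Real.pi * α * z)| ≤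
        tt α * (2 * Real.pi * (|α| * |x - z|)) := mul_le_mul_of_nonneg_left h2 (tt_nonneg α)
      _ = _ := by ring
  calc |∫ α, (tt α * Real.cos (2 * Real.pi * α * x) - tt α * Real.cos (2 * Real.pi * α * z))| ≤
      ∫ α, |tt α * Real.cos (2 * Real.pi * α * x) - tt α * Real.cos (2 * Real.pi * α * z)| :=
        abs_integral_le_integral_abs
    _ ≤ ∫ α, 2 * Real.pi * |x - z| * (tt α * |α|) := by
        apply integral_mono_of_nonneg (Filter.Eventually.of_forall fun _ => abs_nonneg _)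
          ((tt_int continuous_abs).const_mul _) (Filter.Eventually.of_forall h1)
    _ = 2 * Real.pi * |x - z| * (1 / 2 * (1 / 4)) := by
        rw [integral_const_mul]
        congr 1
        exact tri_abs (e := 1 / 4) (a := 1 / 2) (by norm_num) (by norm_num)
    _ ≤ 1 * |x - z| := by
        have h4 := Real.pi_le_four
        have h5 := abs_nonneg (x - z)
        nlinarith

lemma int_lin3 {f g h : ℝ → ℝ} (hf : Integrable f) (hg : Integrable g) (hh : Integrable h)
    (a b : ℝ) : ∫ x, (a * f x + b * g x + h x) = a * (∫ x, f x) + b * (∫ x, g x) + ∫ x, h x := by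
  have h1 : ∫ x, (a * f x + b * g x + h x) = (∫ x, (a * f x + b * g x)) + ∫ x, h x :=
    integral_add ((hf.const_mul a).add (hg.const_mul b)) hh
  have h2 : ∫ x, (a * f x + b * g x) = (∫ x, a * f x) + ∫ x, b * g x :=
    integral_add (hf.const_mul a) (hg.const_mul b)
  rw [h1, h2, integral_const_mul, integral_const_mul]

/-- cosine sums -/
noncomputable def Pc (s : Finset ℕ) (u : ℕ → ℝ) (α : ℝ) : ℝ :=
  ∑ i ∈ s, Real.cos (2 * Real.pi * α * u i)

/-- sine sums -/
noncomputable def Ps (s : Finset ℕ) (u : ℕ → ℝ) (α : ℝ) : ℝ :=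
  ∑ i ∈ s, Real.sin (2 * Real.pi * α * u i)

lemma Pc_cont (s : Finset ℕ) (u : ℕ → ℝ) : Continuous (Pc s u) := by
  unfold Pc; fun_prop

lemma Ps_cont (s : Finset ℕ) (u : ℕ → ℝ) : Continuous (Ps s u) := by
  unfold Ps; fun_prop

lemma bil (s t : Finset ℕ) (u v : ℕ → ℝ) :
    ∑ i ∈ s, ∑ j ∈ t, rk (u i - v j) =
      ∫ α, tt α * (Pc s u α * Pc t v α + Ps s u α * Ps t v α) := by
  have h1 : ∀ α, tt α * (Pc s u α * Pc t v α + Ps s u α * Ps t v α) =
      ∑ i ∈ s, ∑ j ∈ t, tt α * Real.cos (2 * Real.pi * α * (u i - v j)) := by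
    intro α
    unfold Pc Ps
    rw [Finset.sum_mul_sum, Finset.sum_mul_sum, ← Finset.sum_add_distrib, Finset.mul_sum]
    refine Finset.sum_congr rfl fun i _ => ?_
    rw [← Finset.sum_add_distrib, Finset.mul_sum]
    refine Finset.sum_congr rfl fun j _ => ?_
    rw [mul_sub, Real.cos_sub]
  simp_rw [h1]
  rw [integral_finset_sum _ fun i _ => integrable_finset_sum _ fun j _ => tt_int (by fun_prop)]
  refine Finset.sum_congr rfl fun i _ => ?_
  rw [integral_finset_sum _ fun j _ => tt_int (by fun_prop)]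
  rfl

lemma psd (s : Finset ℕ) (u : ℕ → ℝ) : 0 ≤ ∑ i ∈ s, ∑ j ∈ s, rk (u i - u j) := by
  rw [bil]
  apply integral_nonneg
  intro α
  show 0 ≤ tt α * (Pc s u α * Pc s u α + Ps s u α * Ps s u α)
  apply mul_nonneg (tt_nonneg α)
  nlinarith [mul_self_nonneg (Pc s u α), mul_self_nonneg (Ps s u α)]

lemma csb (s t : Finset ℕ) (u v : ℕ → ℝ) : (∑ i ∈ s, ∑ j ∈ t, rk (u i - v j)) ^ 2 ≤
    (∑ i ∈ s, ∑ j ∈ s, rk (u i - u j)) * (∑ i ∈ t, ∑ j ∈ t, rk (v i - v j)) := by
  set A := ∑ i ∈ s, ∑ j ∈ s, rk (u i - u j) with hA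
  set B := ∑ i ∈ t, ∑ j ∈ t, rk (v i - v j) with hB
  set C := ∑ i ∈ s, ∑ j ∈ t, rk (u i - v j) with hC
  have hP := Pc_cont s u
  have hP' := Ps_cont s u
  have hQ := Pc_cont t v
  have hQ' := Ps_cont t v
  have key : ∀ l : ℝ, 0 ≤ B * (l * l) + 2 * C * l + A := by
    intro l
    have h1 : B * (l * l) + 2 * C * l + A =
        ∫ α, tt α * ((Pc s u α + l * Pc t v α) ^ 2 + (Ps s u α + l * Ps t v α) ^ 2) := by
      have h2 : ∀ α, tt α * ((Pc s u α + l * Pc t v α) ^ 2 + (Ps s u α + l * Ps t v α) ^ 2) =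
          (l * l) * (tt α * (Pc t v α * Pc t v α + Ps t v α * Ps t v α)) +
          (2 * l) * (tt α * (Pc s u α * Pc t v α + Ps s u α * Ps t v α)) +
          tt α * (Pc s u α * Pc s u α + Ps s u α * Ps s u α) := by
        intro α
        ring
      simp_rw [h2]
      have i1 : Integrable (fun α => tt α * (Pc t v α * Pc t v α + Ps t v α * Ps t v α)) :=
        tt_int ((hQ.mul hQ).add (hQ'.mul hQ'))
      have i2 : Integrable (fun α => tt α * (Pc s u α * Pc t v α + Ps s u α * Ps t v α)) :=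
        tt_int ((hP.mul hQ).add (hP'.mul hQ'))
      have i3 : Integrable (fun α => tt α * (Pc s u α * Pc s u α + Ps s u α * Ps s u α)) :=
        tt_int ((hP.mul hP).add (hP'.mul hP'))
      refine Eq.trans ?_ (int_lin3 i1 i2 i3 (l * l) (2 * l)).symm
      rw [← bil, ← bil, ← bil, hA, hB, hC]
      ring
    rw [h1]
    apply integral_nonneg
    intro α
    show 0 ≤ tt α * ((Pc s u α + l * Pc t v α) ^ 2 + (Ps s u α + l * Ps t v α) ^ 2)
    have := tt_nonneg α
    positivity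
  have h2 := discrim_le_zero key
  unfold discrim at h2
  nlinarith

/-- the test function -/
noncomputable def psp (p : ℕ) (α : ℝ) : ℝ := tt α * (1 - Real.cos (2 * Real.pi * α * p))

lemma tt_out {x : ℝ} (hx : 3 / 4 ≤ |x|) : tt x = 0 := by
  apply tri_zero (by norm_num)
  rcases le_or_gt 0 x with h | h
  · rw [abs_of_nonneg h] at hx
    rw [abs_of_nonneg (by linarith)]
    linarith
  · rw [abs_of_neg h] at hx
    rw [abs_of_neg (by linarith)]
    linarith

lemma psp_out (p : ℕ) (x : ℝ) (hx : 3 / 4 ≤ |x|) : psp p x = 0 := by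
  unfold psp
  rw [tt_out hx, zero_mul]

lemma tt_le (x : ℝ) : tt x ≤ 1 := by
  unfold tt tri
  apply max_le zero_le_one
  have : 0 ≤ |x - 1 / 2| / (1 / 4) := by positivity
  linarith

lemma psp_lip (p : ℕ) (x y : ℝ) : |psp p x - psp p y| ≤ (8 + 2 * Real.pi * p) * |x - y| := by
  unfold psp
  have h1 : tt x * (1 - Real.cos (2 * Real.pi * x * p)) - tt y * (1 - Real.cos (2 * Real.pi * y * p)) =
      (tt x - tt y) * (1 - Real.cos (2 * Real.pi * x * p)) +
      tt y * (Real.cos (2 * Real.pi * y * p) - Real.cos (2 * Real.pi * x * p)) := by ring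
  rw [h1]
  refine (abs_add_le _ _).trans ?_
  rw [abs_mul, abs_mul, abs_of_nonneg (tt_nonneg y)]
  have h2 : |tt x - tt y| ≤ 4 * |x - y| := by
    have := tri_lip (e := 1 / 4) (by norm_num) (x - 1 / 2) (y - 1 / 2)
    have e : x - 1 / 2 - (y - 1 / 2) = x - y := by ring
    rw [e] at this
    refine this.trans (le_of_eq ?_)
    norm_num
  have h3 : |1 - Real.cos (2 * Real.pi * x * p)| ≤ 2 := by
    have := Real.neg_one_le_cos (2 * Real.pi * x * p)
    have := Real.cos_le_one (2 * Real.pi * x * p)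
    rw [abs_le]
    constructor <;> linarith
  have h4 : |Real.cos (2 * Real.pi * y * p) - Real.cos (2 * Real.pi * x * p)| ≤
      2 * Real.pi * p * |x - y| := by
    have h5 := Real.abs_cos_sub_cos_le (2 * Real.pi * y * p) (2 * Real.pi * x * p)
    have h6 : 2 * Real.pi * y * p - 2 * Real.pi * x * p = 2 * Real.pi * p * (y - x) := by ring
    rw [h6, abs_mul, abs_of_nonneg (by positivity : 0 ≤ 2 * Real.pi * p), abs_sub_comm y x] at h5
    exact h5
  have h7 := mul_le_mul h2 h3 (abs_nonneg _) (by positivity)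
  have h8 := mul_le_mul (tt_le y) h4 (abs_nonneg _) zero_le_one
  linarith

lemma int_out {g : ℝ → ℝ} (hg : ∀ x, 3 / 4 ≤ |x| → g x = 0) :
    ∫ α in (-(3 / 4 : ℝ))..(3 / 4), g α = ∫ α, g α := by
  apply intervalIntegral.integral_eq_integral_of_support_subset
  intro α hα
  by_contra h
  apply hα
  apply hg
  by_contra h2
  push Not at h2
  obtain ⟨h3, h4⟩ := abs_lt.1 h2
  exact h ⟨h3, h4.le⟩

lemma RR_psp (p : ℕ) (x : ℝ) :
    RR (psp p) (3 / 4) x = rk x - (rk (x + p) + rk (x - p)) / 2 := by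
  unfold RR
  rw [int_out (fun x hx => by rw [psp_out p x hx, zero_mul])]
  have h1 : ∀ α, psp p α * Real.cos (2 * Real.pi * α * x) =
      (-(1 / 2)) * (tt α * Real.cos (2 * Real.pi * α * (x + p))) +
        (-(1 / 2)) * (tt α * Real.cos (2 * Real.pi * α * (x - p))) +
        tt α * Real.cos (2 * Real.pi * α * x) := by
    intro α
    unfold psp
    have e1 : 2 * Real.pi * α * (x + p) = 2 * Real.pi * α * x + 2 * Real.pi * α * p := by ring
    have e2 : 2 * Real.pi * α * (x - p) = 2 * Real.pi * α * x - 2 * Real.pi * α * p := by ring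
    rw [e1, e2, Real.cos_add, Real.cos_sub]
    ring
  simp_rw [h1]
  have i1 : Integrable fun α => tt α * Real.cos (2 * Real.pi * α * x) := tt_int (by fun_prop)
  have i2 : Integrable fun α => tt α * Real.cos (2 * Real.pi * α * (x + p)) :=
    tt_int (by fun_prop)
  have i3 : Integrable fun α => tt α * Real.cos (2 * Real.pi * α * (x - p)) :=
    tt_int (by fun_prop)
  refine (int_lin3 i2 i3 i1 _ _).trans ?_
  unfold rk
  ring

lemma RR_psp_sq (p : ℕ) (x : ℝ) : |RR (psp p) (3 / 4) x| * x ^ 2 ≤ 12 + 2 * p ^ 2 := by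
  rw [RR_psp]
  have h1 := rk_sq x
  have h2 := rk_sq (x + p)
  have h3 := rk_sq (x - p)
  have h4 := rk_one (x + p)
  have h5 := rk_one (x - p)
  have g1 : |rk x - (rk (x + p) + rk (x - p)) / 2| ≤
      |rk x| + (|rk (x + p)| + |rk (x - p)|) / 2 := by
    refine (abs_sub _ _).trans ?_
    rw [abs_div, abs_two]
    have := abs_add_le (rk (x + p)) (rk (x - p))
    linarith
  have g2 : |rk (x + p)| * x ^ 2 ≤ 8 + 2 * p ^ 2 := by
    have e1 : x ^ 2 ≤ 2 * (x + p) ^ 2 + 2 * (p : ℝ) ^ 2 := by nlinarith [sq_nonneg (x + 2 * p)]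
    have e2 := mul_le_mul_of_nonneg_left e1 (abs_nonneg (rk (x + p)))
    have e3 : |rk (x + p)| * (2 * (p : ℝ) ^ 2) ≤ 1 * (2 * (p : ℝ) ^ 2) :=
      mul_le_mul_of_nonneg_right h4 (by positivity)
    linarith
  have g3 : |rk (x - p)| * x ^ 2 ≤ 8 + 2 * p ^ 2 := by
    have e1 : x ^ 2 ≤ 2 * (x - p) ^ 2 + 2 * (p : ℝ) ^ 2 := by nlinarith [sq_nonneg (x - 2 * p)]
    have e2 := mul_le_mul_of_nonneg_left e1 (abs_nonneg (rk (x - p)))
    have e3 : |rk (x - p)| * (2 * (p : ℝ) ^ 2) ≤ 1 * (2 * (p : ℝ) ^ 2) :=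
      mul_le_mul_of_nonneg_right h5 (by positivity)
    linarith
  have g4 := mul_le_mul_of_nonneg_right g1 (sq_nonneg x)
  linarith

lemma KK_nat (p : ℕ) (hp : 1 ≤ p) : KK (1 / 4) p ≤ 2 / 9 := by
  have hpi := Real.pi_gt_three
  have hp1 : (1 : ℝ) ≤ p := by exact_mod_cast hp
  have hpi2 : 9 ≤ Real.pi ^ 2 := by nlinarith
  rw [KK_ne (by norm_num) (by positivity), div_pow]
  rcases Nat.lt_or_ge p 2 with h | h
  · have h1 : p = 1 := by omega
    subst h1
    have e : Real.pi * (1 / 4 * ((1 : ℕ) : ℝ)) = Real.pi / 4 := by push_cast; ring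
    rw [e, Real.sin_pi_div_four, div_pow, Real.sq_sqrt (by norm_num)]
    rw [div_pow, div_div_eq_mul_div]
    have e2 : (1 : ℝ) / 4 * (2 / 2 ^ 2 * 4 ^ 2 / Real.pi ^ 2) = 2 / Real.pi ^ 2 := by ring
    rw [e2]
    exact div_le_div_of_nonneg_left (by norm_num) (by norm_num) hpi2
  · have hp2 : (2 : ℝ) ≤ p := by exact_mod_cast h
    have h1 : Real.sin (Real.pi * (1 / 4 * p)) ^ 2 ≤ 1 := Real.sin_sq_le_one _
    have h2 : (0 : ℝ) < (Real.pi * (1 / 4 * p)) ^ 2 := by positivity
    have h3 : (9 : ℝ) / 4 ≤ (Real.pi * (1 / 4 * p)) ^ 2 := by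
      have h4 : (3 : ℝ) / 2 ≤ Real.pi * (1 / 4 * p) := by nlinarith
      nlinarith
    have h5 : Real.sin (Real.pi * (1 / 4 * p)) ^ 2 / (Real.pi * (1 / 4 * p)) ^ 2 ≤ 1 / (9 / 4) :=
      div_le_div₀ zero_le_one h1 (by norm_num) h3
    calc (1 : ℝ) / 4 * (Real.sin (Real.pi * (1 / 4 * p)) ^ 2 / (Real.pi * (1 / 4 * p)) ^ 2) ≤
        1 / 4 * (1 / (9 / 4)) := mul_le_mul_of_nonneg_left h5 (by norm_num)
      _ ≤ 2 / 9 := by norm_num

lemma rk_zero : rk 0 = 1 / 4 := by
  rw [rk_eq, mul_zero, Real.cos_zero, one_mul, KK_zero (by norm_num)]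

lemma tt_in {α : ℝ} (h : α ≤ 1 / 4) : tt α = 0 := by
  apply tri_zero (by norm_num)
  rw [abs_of_nonpos (by linarith)]
  linarith

/-- the main term -/
lemma main_psp (p : ℕ) (hp : 1 ≤ p) :
    1 / 144 ≤ psp p 0 + ∫ α in (-(3 / 4 : ℝ))..(3 / 4), |α| * psp p α := by
  have h0 : psp p 0 = 0 := by
    unfold psp
    rw [tt_in (by norm_num), zero_mul]
  rw [h0, zero_add, int_out (fun x hx => by rw [psp_out p x hx, mul_zero])]
  have i1 : Integrable fun α => tt α * (1 - Real.cos (2 * Real.pi * α * p)) :=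
    tt_int (by fun_prop)
  have i2 : Integrable fun α => |α| * psp p α := by
    have := tt_int (g := fun α => |α| * (1 - Real.cos (2 * Real.pi * α * p))) (by fun_prop)
    refine this.congr (Filter.Eventually.of_forall fun α => ?_)
    show tt α * (|α| * (1 - Real.cos (2 * Real.pi * α * p))) = |α| * psp p α
    unfold psp
    ring
  have h1 : ∫ α, (1 / 4) * (tt α * (1 - Real.cos (2 * Real.pi * α * p))) ≤
      ∫ α, |α| * psp p α := by
    apply integral_mono (i1.const_mul _) i2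
    intro α
    show (1 / 4) * (tt α * (1 - Real.cos (2 * Real.pi * α * p))) ≤ |α| * psp p α
    unfold psp
    have h2 : 0 ≤ 1 - Real.cos (2 * Real.pi * α * p) := by
      linarith [Real.cos_le_one (2 * Real.pi * α * p)]
    rcases le_or_gt α (1 / 4) with h | h
    · rw [tt_in h]
      simp
    · apply mul_le_mul_of_nonneg_right _ (mul_nonneg (tt_nonneg α) h2)
      rw [abs_of_pos (by linarith)]
      exact h.le
  refine le_trans ?_ h1
  rw [integral_const_mul]
  have h3 : ∫ α, tt α * (1 - Real.cos (2 * Real.pi * α * p)) = rk 0 - rk p := by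
    unfold rk
    rw [← integral_sub (tt_int (by fun_prop)) (tt_int (by fun_prop))]
    refine integral_congr_ae (Filter.Eventually.of_forall fun α => ?_)
    show tt α * (1 - Real.cos (2 * Real.pi * α * p)) =
      tt α * Real.cos (2 * Real.pi * α * 0) - tt α * Real.cos (2 * Real.pi * α * p)
    rw [mul_zero, Real.cos_zero]
    ring
  rw [h3, rk_zero]
  have h4 := (le_abs_self (rk p)).trans ((rk_abs_le p).trans (KK_nat p hp))
  linarith

end Pool.Agent.P8H60.GapLin
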