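import Pool.Agent.H177R3.LatE
import Pool.Agent.Y743.LR.NT5
import Pool.Agent.P8H60.GapLin.Kernel
import Pool.Agent.P8H60.GapLin.Core
import Pool.Agent.P8H60.GapLin.Form

/-! # Sums of `p` consecutive gaps do not degenerate, uniformly in `p` -/

set_option autoImplicit false

open Filter Topology Set MeasureTheory

namespace Pool.Agent.P8H60.GapLin

open SG (ord NZ)
open H177.Lat (yy third PP_conv kI NZ_three log_le_half)
open H370.A2 (RR PP almost_smooth)
open Pool.Agent.Y743.LR (dl dif yv dl_close dif_nonneg dif_yv ord_step)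

lemma pow_eighth : ∃ T0 : ℝ, 100 ≤ T0 ∧ ∀ T : ℝ, T0 ≤ T → T ^ (4 / 5 : ℝ) ≤ T / 8 := by
  have ev1 : ∀ᶠ T : ℝ in atTop, T ^ (4 / 5 : ℝ) ≤ T / 8 := by
    have h1 : ∀ᶠ T : ℝ in atTop, (8 : ℝ) ≤ T ^ (1 / 5 : ℝ) :=
      (tendsto_rpow_atTop (by norm_num)).eventually_ge_atTop _
    filter_upwards [h1, eventually_gt_atTop 0] with T h1 h2
    have h3 : T ^ (4 / 5 : ℝ) * T ^ (1 / 5 : ℝ) = T := by
      rw [← Real.rpow_add h2]
      norm_num
    have h4 : 0 < T ^ (4 / 5 : ℝ) := Real.rpow_pos_of_pos h2 _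
    nlinarith
  obtain ⟨T1, hT1⟩ := ev1.exists_forall_of_atTop
  exact ⟨max 100 T1, le_max_left _ _, fun T hT => hT1 T ((le_max_right _ _).trans hT)⟩

/-- a good block -/
lemma block_lower (hRH : RiemannHypothesis) (p : ℕ) (hp : 1 ≤ p) :
    ∃ T0 : ℝ, 100 ≤ T0 ∧ ∀ T : ℝ, T0 ≤ T → ∃ t : ℝ, T ≤ t ∧ t ≤ 2 * T ∧
      1 / 288 * (T / 8 * Real.log T / (2 * Real.pi)) ≤
        ∑ n ∈ Finset.Ioc (NZ t) (NZ (t + T / 8)), ∑ n' ∈ Finset.Ioc (NZ t) (NZ (t + T / 8)),
          (rk (yy T n - yy T n') - rk (yy T n - yy T n' - p)) := by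
  have hpi := Real.pi_pos
  obtain ⟨δ, hδ, T1, hT1, hP⟩ := almost_smooth hRH (4 / 5) (3 / 4) (1 / 288) (by norm_num)
    (by norm_num) (by norm_num) (by norm_num) (by norm_num) (psp p) (8 + 2 * Real.pi * p)
    (psp_lip p) (psp_out p) (12 + 2 * (p : ℝ) ^ 2) (RR_psp_sq p)
  obtain ⟨T2, hT2, h2⟩ := pow_eighth
  refine ⟨max T1 T2, hT2.trans (le_max_right _ _), fun T hT => ?_⟩
  have hTT1 : T1 ≤ T := (le_max_left _ _).trans hT
  have hTT2 : T2 ≤ T := (le_max_right _ _).trans hT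
  have hT100 : 100 ≤ T := hT2.trans hTT2
  have hTpos : 0 < T := by linarith
  have hLpos : 0 < Real.log T := Real.log_pos (by linarith)
  set M : ℝ := T / 8 * Real.log T / (2 * Real.pi) with hM
  have hM0 : 0 < M := by positivity
  have h3 := hP T hTT1 (T / 8) (h2 T hTT2) le_rfl
  obtain ⟨t, ht, hgood⟩ : ∃ t : ℝ, t ∈ Set.Icc T (2 * T) ∧
      |PP (psp p) (3 / 4) t (t + T / 8) (Real.log T) -
        M * (psp p 0 + ∫ α in (-(3 / 4))..(3 / 4), |α| * psp p α)| ≤ 1 / 288 * M := by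
    by_contra hcon
    push Not at hcon
    have h4 : Set.Icc T (2 * T) ⊆ {t : ℝ | t ∈ Set.Icc T (2 * T) ∧
        ¬ (|PP (psp p) (3 / 4) t (t + T / 8) (Real.log T) -
            (T / 8 * Real.log T / (2 * Real.pi)) *
              (psp p 0 + ∫ α in (-(3 / 4))..(3 / 4), |α| * psp p α)| ≤
            1 / 288 * (T / 8 * Real.log T / (2 * Real.pi)))} := by
      intro t ht
      exact ⟨ht, not_le.2 (hcon t ht)⟩
    have h5 := (measure_mono h4).trans h3
    rw [Real.volume_Icc, ENNReal.ofReal_le_ofReal_iff (by positivity)] at h5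
    have h6 : T ^ (1 - δ) < T ^ (1 : ℝ) :=
      Real.rpow_lt_rpow_of_exponent_lt (by linarith) (by linarith)
    rw [Real.rpow_one] at h6
    linarith
  refine ⟨t, ht.1, ht.2, ?_⟩
  set I := Finset.Ioc (NZ t) (NZ (t + T / 8)) with hI
  rw [PP_conv hRH (by linarith [ht.1] : 1 ≤ t)] at hgood
  have e1 : ∑ n ∈ I, ∑ n' ∈ I, RR (psp p) (3 / 4)
      (ord n * Real.log T / (2 * Real.pi) - ord n' * Real.log T / (2 * Real.pi)) =
      ∑ n ∈ I, ∑ n' ∈ I, (rk (yy T n - yy T n') - rk (yy T n - yy T n' - p)) := by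
    have e2 : ∑ n ∈ I, ∑ n' ∈ I, rk (yy T n - yy T n' + p) =
        ∑ n ∈ I, ∑ n' ∈ I, rk (yy T n - yy T n' - p) := by
      rw [Finset.sum_comm]
      refine Finset.sum_congr rfl fun n _ => Finset.sum_congr rfl fun n' _ => ?_
      rw [← rk_neg]
      congr 1
      ring
    have e3 : ∑ n ∈ I, ∑ n' ∈ I, RR (psp p) (3 / 4)
        (ord n * Real.log T / (2 * Real.pi) - ord n' * Real.log T / (2 * Real.pi)) =
        ∑ n ∈ I, ∑ n' ∈ I, rk (yy T n - yy T n') -
          (∑ n ∈ I, ∑ n' ∈ I, rk (yy T n - yy T n' + p) +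
            ∑ n ∈ I, ∑ n' ∈ I, rk (yy T n - yy T n' - p)) / 2 := by
      rw [← Finset.sum_add_distrib, Finset.sum_div, ← Finset.sum_sub_distrib]
      refine Finset.sum_congr rfl fun n _ => ?_
      rw [← Finset.sum_add_distrib, Finset.sum_div, ← Finset.sum_sub_distrib]
      refine Finset.sum_congr rfl fun n' _ => ?_
      rw [RR_psp]
      rfl
    rw [e3, e2]
    rw [show ∑ n ∈ I, ∑ n' ∈ I, (rk (yy T n - yy T n') - rk (yy T n - yy T n' - p)) =
      ∑ n ∈ I, ∑ n' ∈ I, rk (yy T n - yy T n') - ∑ n ∈ I, ∑ n' ∈ I, rk (yy T n - yy T n' - p) by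
      rw [← Finset.sum_sub_distrib]
      exact Finset.sum_congr rfl fun n _ => Finset.sum_sub_distrib _ _]
    ring
  rw [e1] at hgood
  have h7 := (abs_le.1 hgood).1
  have h8 := main_psp p hp
  have h9 := mul_le_mul_of_nonneg_left h8 hM0.le
  linarith

/-- the change of scale -/
lemma min_close {p : ℕ} {e D τ : ℝ} (hτ : 0 ≤ τ) (h1 : |D - e| ≤ τ * (p + e))
    (h2 : τ * (p + 1) ≤ 1 / 4) (h0 : 0 ≤ p + e) (hp : 1 ≤ p) :
    min 1 (e ^ 2) ≤ 4 * D ^ 2 + 2 * (τ * (p + 1)) ^ 2 := by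
  have hp1 : (1 : ℝ) ≤ p := by exact_mod_cast hp
  have hr : 0 ≤ (τ * (p + 1)) ^ 2 := sq_nonneg _
  rw [abs_le] at h1
  rcases le_or_gt |e| 1 with h | h
  · refine (min_le_right _ _).trans ?_
    obtain ⟨e1, e2⟩ := abs_le.1 h
    have h3 : τ * (p + e) ≤ τ * (p + 1) := mul_le_mul_of_nonneg_left (by linarith) hτ
    have h4 : (D - e) ^ 2 ≤ (τ * (p + 1)) ^ 2 := by
      apply sq_le_sq'
      · linarith
      · linarith
    nlinarith [sq_nonneg (D + (D - e)), sq_nonneg (2 * D - e)]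
  · refine (min_le_left _ _).trans ?_
    have hD : 1 / 2 ≤ |D| := by
      rcases lt_abs.1 h with h3 | h3
      · have h4 : τ ≤ 1 / 8 := by nlinarith
        have h5 : τ * (p + e) ≤ 1 / 4 + 1 / 8 * e := by nlinarith
        have h6 : 1 / 2 ≤ D := by linarith
        exact h6.trans (le_abs_self D)
      · have h5 : τ * (p + e) ≤ 1 / 4 := by nlinarith
        have h6 : D ≤ -(1 / 2) := by linarith
        have := neg_le_abs D
        linarith
    have : (1 / 2 : ℝ) ^ 2 ≤ |D| ^ 2 := pow_le_pow_left₀ (by norm_num) hD 2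
    rw [sq_abs] at this
    linarith

/-- sums of squares over the first zeros -/
theorem local_var (hRH : RiemannHypothesis) : ∃ c : ℝ, 0 < c ∧ ∀ p : ℕ, 1 ≤ p →
    ∃ T0 : ℝ, 100 ≤ T0 ∧ ∀ T : ℝ, T0 ≤ T → c * (T * Real.log T) ≤
      ∑ n ∈ Finset.Ioc 0 (NZ (3 * T)), (∑ i ∈ Finset.range p, (dl (n + i) - 1)) ^ 2 := by
  have hpi := Real.pi_pos
  have hpi3 := Real.pi_gt_three
  have hpi4 := Real.pi_le_four
  obtain ⟨C1, T1, hC1, hT1, h1⟩ := third hRH (4 / 5) 1 (by norm_num) (by norm_num) zero_le_one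
  obtain ⟨C2, T2, hC2, hT2, h2⟩ := third hRH (4 / 5) ((2 : ℕ) : ℝ) (by norm_num) (by norm_num)
    (Nat.cast_nonneg _)
  obtain ⟨C', hC'⟩ : ∃ C' : ℝ, C' = C2 + 32 * C1 := ⟨_, rfl⟩
  have hC'0 : 0 < C' := by rw [hC']; positivity
  obtain ⟨κ, hκ⟩ : ∃ κ : ℝ, κ = 1 / 288 := ⟨_, rfl⟩
  have hκ0 : 0 < κ := by rw [hκ]; norm_num
  obtain ⟨R, hR2, hRa, hRb⟩ : ∃ R : ℕ, 2 ≤ R ∧ 2560 * C1 / κ ≤ R ∧
      65536 * C1 * C' / κ ^ 2 ≤ R := by
    refine ⟨max 2 (max ⌈2560 * C1 / κ⌉₊ ⌈65536 * C1 * C' / κ ^ 2⌉₊), le_max_left _ _,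
      (Nat.le_ceil _).trans ?_, (Nat.le_ceil _).trans ?_⟩
    · exact_mod_cast (le_max_left _ _).trans (le_max_right _ _)
    · exact_mod_cast (le_max_right _ _).trans (le_max_right _ _)
  have hR0 : (0 : ℝ) < R := by
    have : 0 < R := by omega
    exact_mod_cast this
  obtain ⟨CR, T3, hCR, hT3, hk⟩ := third hRH (4 / 5) R (by norm_num) (by norm_num)
    (Nat.cast_nonneg _)
  obtain ⟨T5, hT5, h5⟩ := pow_eighth
  obtain ⟨c, hc⟩ : ∃ c : ℝ, c = min (κ ^ 2 / 64) ((κ ^ 2 / (1024 * C')) ^ 2) / CR := ⟨_, rfl⟩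
  have hc0 : 0 < c := by
    rw [hc]
    exact div_pos (lt_min (by positivity) (by positivity)) hCR
  have hcCR : c * CR = min (κ ^ 2 / 64) ((κ ^ 2 / (1024 * C')) ^ 2) := by
    rw [hc]
    field_simp
  set K0 : ℝ := |Real.log 1| + |Real.log 3| + Real.log (2 * Real.pi) with hK0
  have hK00 : 0 ≤ K0 := by
    have : 0 ≤ Real.log (2 * Real.pi) := Real.log_nonneg (by linarith)
    positivity
  refine ⟨c / (128 * Real.pi), by positivity, fun p hp => ?_⟩
  have hp1 : (1 : ℝ) ≤ p := by exact_mod_cast hp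
  obtain ⟨T4, hT4, h4⟩ := block_lower hRH p hp
  obtain ⟨T6, hT6⟩ := (Real.tendsto_log_atTop.eventually_ge_atTop
    (max (max (p / c) (2 * p ^ 2 / κ + 1)) (max (4 * K0 * (p + 1) + 1)
      (4 * C1 * (K0 * (p + 1)) ^ 2 / c)))).exists_forall_of_atTop
  refine ⟨max (max (max T1 T2) (max T3 T4)) (max T5 T6),
    hT5.trans ((le_max_left _ _).trans (le_max_right _ _)), fun T hT => ?_⟩
  have hTT1 : T1 ≤ T := ((le_max_left _ _).trans ((le_max_left _ _).trans (le_max_left _ _))).trans hT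
  have hTT2 : T2 ≤ T := ((le_max_right _ _).trans ((le_max_left _ _).trans (le_max_left _ _))).trans hT
  have hTT3 : T3 ≤ T := ((le_max_left _ _).trans ((le_max_right _ _).trans (le_max_left _ _))).trans hT
  have hTT4 : T4 ≤ T := ((le_max_right _ _).trans ((le_max_right _ _).trans (le_max_left _ _))).trans hT
  have hTT5 : T5 ≤ T := ((le_max_left _ _).trans (le_max_right _ _)).trans hT
  have hTT6 : T6 ≤ T := ((le_max_right _ _).trans (le_max_right _ _)).trans hT
  have hT100 : 100 ≤ T := hT5.trans hTT5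
  have hTpos : 0 < T := by linarith
  have hL := hT6 T hTT6
  have hLa : p / c ≤ Real.log T := ((le_max_left _ _).trans (le_max_left _ _)).trans hL
  have hLb : 2 * p ^ 2 / κ + 1 ≤ Real.log T := ((le_max_right _ _).trans (le_max_left _ _)).trans hL
  have hLc : 4 * K0 * (p + 1) + 1 ≤ Real.log T :=
    ((le_max_left _ _).trans (le_max_right _ _)).trans hL
  have hLd : 4 * C1 * (K0 * (p + 1)) ^ 2 / c ≤ Real.log T :=
    ((le_max_right _ _).trans (le_max_right _ _)).trans hL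
  have hL1 : 1 ≤ Real.log T := by
    have : 0 ≤ 2 * (p : ℝ) ^ 2 / κ := by positivity
    linarith
  have hLpos : 0 < Real.log T := by linarith
  set M : ℝ := T / 8 * Real.log T / (2 * Real.pi) with hM
  have hM0 : 0 < M := by positivity
  have hML : Real.log T ≤ M := by
    rw [hM, le_div_iff₀ (by positivity)]
    nlinarith
  obtain ⟨t, ht1, ht2, hF⟩ := h4 T hTT4
  rw [← hM, ← hκ] at hF
  set a := NZ t with ha
  set b := NZ (t + T / 8) with hb
  have g1 := h1 T hTT1 (T / 8) (h5 T hTT5) le_rfl t ht1 ht2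
  have g2 := h2 T hTT2 (T / 8) (h5 T hTT5) le_rfl t ht1 ht2
  have g3 := hk T hTT3 (T / 8) (h5 T hTT5) le_rfl t ht1 ht2
  rw [← ha, ← hb, ← hM] at g1 g2 g3
  set I := Finset.Ioc a b with hI
  have hab : a + p ≤ b := by
    by_contra hcon
    push Not at hcon
    have hcard : (I.card : ℝ) ≤ p := by
      rw [hI, Nat.card_Ioc]
      have : b - a ≤ p := by omega
      exact_mod_cast this
    have q1 : ∑ n ∈ I, ∑ n' ∈ I, (rk (yy T n - yy T n') - rk (yy T n - yy T n' - p)) ≤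
        ∑ n ∈ I, ∑ n' ∈ I, (2 : ℝ) := by
      refine Finset.sum_le_sum fun n _ => Finset.sum_le_sum fun n' _ => ?_
      have e1 := (abs_le.1 (rk_one (yy T n - yy T n'))).2
      have e2 := (abs_le.1 (rk_one (yy T n - yy T n' - p))).1
      linarith
    rw [Finset.sum_const, Finset.sum_const, nsmul_eq_mul, nsmul_eq_mul] at q1
    have q2 : (I.card : ℝ) * (I.card * 2) ≤ p * (p * 2) := by
      have := Nat.cast_nonneg (α := ℝ) I.card
      gcongr
    have q3 : 2 * (p : ℝ) ^ 2 / κ < M := by linarith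
    rw [div_lt_iff₀ hκ0] at q3
    have q4 := hF.trans (q1.trans q2)
    nlinarith only [q3, q4]
  have hA0 : ∑ n ∈ I, ∑ n' ∈ I, rk (yy T n - yy T n') ≤ C' * M := by
    have q1 := near_far I I (Finset.Subset.refl I) (yy T) 2 le_rfl rk 4 (by norm_num) rk_one rk_sq
    have q2 := kI_sum_le I (yy T) ((2 : ℕ) : ℝ) C2 M g2
    have q3 := kI_sum_le I (yy T) 1 C1 M g1
    refine q1.trans ?_
    have q4 : (4 : ℝ) * (16 / ((2 : ℕ) : ℝ) * ∑ n ∈ I, (kI I (yy T) 1 n : ℝ)) ≤ 32 * (C1 * M) := by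
      push_cast
      linarith
    have e5 : C' * M = C2 * M + 32 * (C1 * M) := by rw [hC']; ring
    rw [e5]
    exact add_le_add q2 q4
  have hE := core2 a b p R hR2 κ 4 1 C1 C' CR M c hκ0 (by norm_num) hC'0 hCR hM0 hc0
    (yy T) rk rk_one rk_sq rk_lip psd csb g1 g3 hA0 (by
      rw [div_le_iff₀ hR0]
      rw [div_le_iff₀ hκ0] at hRa
      linarith) (by
      rw [div_le_div_iff₀ hR0 (by positivity)]
      rw [div_le_iff₀ (by positivity)] at hRb
      linarith) (by
      rw [hcCR, one_pow, one_mul]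
      exact min_le_left _ _) (by
      rw [hcCR]
      exact min_le_right _ _) hab (by
      have : (p : ℝ) / c ≤ M := hLa.trans hML
      rw [div_le_iff₀ hc0] at this
      linarith) hF
  -- the change of scale
  set J := Finset.Ioc a (b - p) with hJ
  set τ : ℝ := K0 / Real.log T with hτ
  have hτ0 : 0 ≤ τ := by positivity
  have hτp : τ * (p + 1) ≤ 1 / 4 := by
    rw [hτ, div_mul_eq_mul_div, div_le_iff₀ hLpos]
    linarith
  have hpt : ∀ n ∈ J, min 1 ((yy T (n + p) - yy T n - p) ^ 2) ≤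
      4 * (∑ i ∈ Finset.range p, (dl (n + i) - 1)) ^ 2 + 2 * (τ * (p + 1)) ^ 2 := by
    intro n hn
    rw [hJ, Finset.mem_Ioc] at hn
    have hn1 : 1 ≤ n := by omega
    have htel : ∑ i ∈ Finset.range p, dif (yv T) (n + i) = yy T (n + p) - yy T n := by
      have := Finset.sum_range_sub (fun i => yv T (n + i)) p
      simp only [add_zero] at this
      have e : yy T (n + p) - yy T n = yv T (n + p) - yv T n := by
        unfold yy yv
        ring
      rw [e, ← this]
      rfl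
    have hnn : 0 ≤ ∑ i ∈ Finset.range p, dif (yv T) (n + i) :=
      Finset.sum_nonneg fun i _ => dif_nonneg (by linarith) (by omega)
    have hcl : |∑ i ∈ Finset.range p, (dl (n + i) - 1) - (yy T (n + p) - yy T n - p)| ≤
        τ * (p + (yy T (n + p) - yy T n - p)) := by
      have e1 : ∑ i ∈ Finset.range p, (dl (n + i) - 1) - (yy T (n + p) - yy T n - p) =
          -∑ i ∈ Finset.range p, (dif (yv T) (n + i) - dl (n + i)) := by
        rw [← htel, Finset.sum_sub_distrib, Finset.sum_sub_distrib, Finset.sum_const,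
          Finset.card_range, nsmul_eq_mul]
        ring
      have e2 : (p : ℝ) + (yy T (n + p) - yy T n - p) = ∑ i ∈ Finset.range p, dif (yv T) (n + i) := by
        rw [htel]
        ring
      rw [e1, e2, abs_neg, Finset.mul_sum]
      refine (Finset.abs_sum_le_sum_abs _ _).trans (Finset.sum_le_sum fun i hi => ?_)
      rw [Finset.mem_range] at hi
      have f1 : T < ord (n + i) := by
        have f2 : t < ord (n + i) := by
          by_contra hcon
          push Not at hcon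
          have := (SG.ord_le_iff (by omega : 1 ≤ n + i) t).mp hcon
          omega
        linarith
      have f3 : ord (n + i) ≤ 3 * T := by
        have f4 : ord (n + i) ≤ t + T / 8 := (SG.ord_le_iff (by omega) _).mpr (by omega)
        linarith
      exact dl_close one_pos (by norm_num) (by linarith) (by omega) (by linarith) f3
    exact min_close hτ0 hcl hτp (by rw [add_sub_cancel, ← htel]; exact hnn) hp
  have hcardJ : (J.card : ℝ) ≤ C1 * M := by
    have q1 : J ⊆ I := by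
      intro n hn
      rw [hJ, Finset.mem_Ioc] at hn
      rw [hI, Finset.mem_Ioc]
      omega
    have q2 : (J.card : ℝ) ≤ I.card := by exact_mod_cast Finset.card_le_card q1
    have q3 : (I.card : ℝ) ≤ ∑ n ∈ I, (kI I (yy T) 1 n : ℝ) := by
      have e : (I.card : ℝ) = ∑ n ∈ I, (1 : ℝ) := by rw [Finset.sum_const, nsmul_eq_mul, mul_one]
      rw [e]
      refine Finset.sum_le_sum fun n hn => ?_
      have : 1 ≤ kI I (yy T) 1 n := by
        unfold kI
        apply Finset.card_pos.2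
        exact ⟨n, Finset.mem_filter.2 ⟨hn, by rw [sub_self, abs_zero]; exact zero_le_one⟩⟩
      exact_mod_cast this
    exact q2.trans (q3.trans (kI_sum_le I (yy T) 1 C1 M g1))
  have hsum := hE.trans (Finset.sum_le_sum hpt)
  rw [Finset.sum_add_distrib, ← Finset.mul_sum, Finset.sum_const, nsmul_eq_mul] at hsum
  have hsmall : (J.card : ℝ) * (2 * (τ * (p + 1)) ^ 2) ≤ c / 2 * M := by
    have q1 : 2 * (τ * (p + 1)) ^ 2 * C1 ≤ c / 2 := by
      have e : (τ * (p + 1)) ^ 2 = (K0 * (p + 1)) ^ 2 / Real.log T ^ 2 := by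
        rw [hτ]
        field_simp
      rw [e]
      have e2 : 2 * ((K0 * ((p : ℝ) + 1)) ^ 2 / Real.log T ^ 2) * C1 =
          2 * C1 * (K0 * (p + 1)) ^ 2 / Real.log T ^ 2 := by ring
      rw [e2, div_le_iff₀ (by positivity)]
      rw [div_le_iff₀ hc0] at hLd
      have q5 : Real.log T * c ≤ Real.log T ^ 2 * c :=
        mul_le_mul_of_nonneg_right (by nlinarith only [hL1]) hc0.le
      have q6 : 2 * C1 * (K0 * ((p : ℝ) + 1)) ^ 2 = (4 * C1 * (K0 * (p + 1)) ^ 2) / 2 := by ring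
      rw [q6]
      linarith
    calc (J.card : ℝ) * (2 * (τ * (p + 1)) ^ 2) ≤ C1 * M * (2 * (τ * (p + 1)) ^ 2) :=
          mul_le_mul_of_nonneg_right hcardJ (by positivity)
      _ = 2 * (τ * (p + 1)) ^ 2 * C1 * M := by ring
      _ ≤ c / 2 * M := mul_le_mul_of_nonneg_right q1 hM0.le
  have hfin : c / 8 * M ≤ ∑ n ∈ J, (∑ i ∈ Finset.range p, (dl (n + i) - 1)) ^ 2 := by linarith
  have hMT : c / 8 * M = c / (128 * Real.pi) * (T * Real.log T) := by
    rw [hM]
    field_simp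
    ring
  rw [← hMT]
  refine hfin.trans ?_
  apply Finset.sum_le_sum_of_subset_of_nonneg
  · intro n hn
    rw [hJ, Finset.mem_Ioc] at hn
    rw [Finset.mem_Ioc]
    have : b ≤ NZ (3 * T) := SG.NZ_mono (by linarith)
    omega
  · intro n _ _
    exact sq_nonneg _

/-- from blocks to the first `N` -/
lemma blocksG (G : ℕ → ℝ) (hG : ∀ n, 0 ≤ G n) (C : ℝ) (hC : 0 < C)
    (hup : ∀ T : ℝ, 4 ≤ T → (NZ (3 * T) : ℝ) ≤ C * (T * Real.log T)) (ε T0 : ℝ) (hε : 0 < ε)
    (h : ∀ T : ℝ, T0 ≤ T → ε * (T * Real.log T) ≤ ∑ n ∈ Finset.Ioc 0 (NZ (3 * T)), G n) :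
    ∀ᶠ N : ℕ in atTop, ε / (2 * C) * N ≤ ∑ n ∈ Finset.Icc 1 N, G n := by
  have hlim : Tendsto (fun N : ℕ => (N : ℝ) / C) atTop atTop :=
    tendsto_natCast_atTop_atTop.atTop_div_const hC
  set X : ℝ := max (max 4 T0) 1 with hX
  filter_upwards [hlim.eventually_ge_atTop (max 3 ((2 * X) ^ 2))] with N hN
  set y : ℝ := (N : ℝ) / C with hy
  have hy3 : 3 ≤ y := (le_max_left _ _).trans hN
  have hyX : (2 * X) ^ 2 ≤ y := (le_max_right _ _).trans hN
  have hy0 : 0 < y := by linarith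
  have hX1 : 1 ≤ X := le_max_right _ _
  have hlogy : 1 ≤ Real.log y := by
    rw [Real.le_log_iff_exp_le hy0]
    have := Real.exp_one_lt_d9
    linarith
  have hl0 : 0 < Real.log y := by linarith
  set T : ℝ := y / Real.log y with hT
  have hTX : X ≤ T := by
    rw [hT, le_div_iff₀ hl0]
    have h1 : Real.log y ≤ Real.sqrt y := by
      have h2 := log_le_half (Real.sqrt_pos.2 hy0)
      have h3 : Real.log y = 2 * Real.log (Real.sqrt y) := by
        rw [Real.log_sqrt hy0.le]; ring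
      linarith
    have h2 : 2 * X ≤ Real.sqrt y := by
      rw [Real.le_sqrt (by positivity) hy0.le]
      exact hyX
    have h3 : Real.sqrt y * Real.sqrt y = y := Real.mul_self_sqrt hy0.le
    nlinarith [Real.sqrt_nonneg y]
  have hT4 : 4 ≤ T := ((le_max_left _ _).trans (le_max_left _ _)).trans hTX
  have hTT0 : T0 ≤ T := ((le_max_right _ _).trans (le_max_left _ _)).trans hTX
  have hT0 : 0 < T := by linarith
  have hlogT : Real.log T = Real.log y - Real.log (Real.log y) := by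
    rw [hT, Real.log_div hy0.ne' hl0.ne']
  have hll : 0 ≤ Real.log (Real.log y) := Real.log_nonneg hlogy
  have hll2 : Real.log (Real.log y) ≤ Real.log y / 2 := log_le_half hl0
  have h1 : T * Real.log T ≤ y := by
    rw [hlogT]
    calc T * (Real.log y - Real.log (Real.log y)) ≤ T * Real.log y :=
          mul_le_mul_of_nonneg_left (by linarith) hT0.le
      _ = y := by rw [hT]; field_simp
  have h2 : y / 2 ≤ T * Real.log T := by
    rw [hlogT]
    calc y / 2 = T * (Real.log y / 2) := by rw [hT]; field_simp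
      _ ≤ T * (Real.log y - Real.log (Real.log y)) :=
          mul_le_mul_of_nonneg_left (by linarith) hT0.le
  have h3 : (NZ (3 * T) : ℝ) ≤ N := by
    refine (hup T hT4).trans ?_
    calc C * (T * Real.log T) ≤ C * y := mul_le_mul_of_nonneg_left h1 hC.le
      _ = N := by rw [hy]; field_simp
  have h4 : NZ (3 * T) ≤ N := by exact_mod_cast h3
  have hle : ∑ n ∈ Finset.Ioc 0 (NZ (3 * T)), G n ≤ ∑ n ∈ Finset.Icc 1 N, G n := by
    apply Finset.sum_le_sum_of_subset_of_nonneg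
    · intro n hn
      rw [Finset.mem_Ioc] at hn
      rw [Finset.mem_Icc]
      omega
    · intro n _ _
      exact hG n
  refine le_trans ?_ ((h T hTT0).trans hle)
  calc ε / (2 * C) * (N : ℝ) = ε * (y / 2) := by rw [hy]; field_simp
    _ ≤ ε * (T * Real.log T) := mul_le_mul_of_nonneg_left h2 hε.le

/-- **the sums of `p` consecutive centred gaps do not degenerate, uniformly in `p`** -/
theorem lowerVar (hRH : RiemannHypothesis) : ∃ c : ℝ, 0 < c ∧ LowerVar (fun n => dl n - 1) c := by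
  obtain ⟨C, hC, hup⟩ := NZ_three
  obtain ⟨c, hc, h⟩ := local_var hRH
  refine ⟨c / (2 * C), by positivity, fun p hp => ?_⟩
  obtain ⟨T0, _, hT0⟩ := h p hp
  exact blocksG (fun n => (∑ i ∈ Finset.range p, (dl (n + i) - 1)) ^ 2) (fun n => sq_nonneg _)
    C hC hup c T0 hc hT0

end Pool.Agent.P8H60.GapLin
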