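import Pool.Agent.P8H60.GapLin.Form

/-! # Uniformity in the coefficients, and counting -/

set_option autoImplicit false

open Finset Polynomial Filter Topology

namespace Pool.Agent.P8H60.GapLin

open Pool.Agent.R846.NC (LogGrowth SmallVar mean_zero)

lemma sum_shift (g : ℕ → ℝ) (N i : ℕ) :
    ∑ n ∈ Icc 1 N, g (n + i) = ∑ n ∈ Icc 1 (N + i), g n - ∑ n ∈ Icc 1 i, g n := by
  induction N with
  | zero => simp
  | succ N ih =>
    have e : N + 1 + i = N + i + 1 := by ring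
    rw [Finset.sum_Icc_succ_top (by omega), ih, e, Finset.sum_Icc_succ_top (by omega)]
    ring

lemma shift_up {g : ℕ → ℝ} (hg : ∀ n, 0 ≤ g n) {V : ℝ}
    (h : ∀ᶠ N : ℕ in atTop, ∑ n ∈ Icc 1 N, g n ≤ V * N) (i : ℕ) :
    ∀ᶠ N : ℕ in atTop, ∑ n ∈ Icc 1 N, g (n + i) ≤ (V + 1) * N := by
  have h1 := (tendsto_add_atTop_nat i).eventually h
  have h2 : ∀ᶠ N : ℕ in atTop, V * i ≤ (N : ℝ) :=
    tendsto_natCast_atTop_atTop.eventually_ge_atTop _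
  filter_upwards [h1, h2] with N h1 h2
  rw [sum_shift]
  have h3 : 0 ≤ ∑ n ∈ Icc 1 i, g n := Finset.sum_nonneg fun n _ => hg n
  push_cast at h1
  linarith

lemma shift_mean {x : ℕ → ℝ} (h : ∀ ε : ℝ, 0 < ε → ∀ᶠ N : ℕ in atTop, |∑ n ∈ Icc 1 N, x n| ≤ ε * N)
    (i : ℕ) (ε : ℝ) (hε : 0 < ε) : ∀ᶠ N : ℕ in atTop, |∑ n ∈ Icc 1 N, x (n + i)| ≤ ε * N := by
  have h1 := (tendsto_add_atTop_nat i).eventually (h (ε / 2) (by positivity))
  have h2 : ∀ᶠ N : ℕ in atTop, ε / 2 * i + |∑ n ∈ Icc 1 i, x n| ≤ ε / 2 * (N : ℝ) :=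
    (tendsto_natCast_atTop_atTop.const_mul_atTop (by positivity : 0 < ε / 2)).eventually_ge_atTop _
  filter_upwards [h1, h2] with N h1 h2
  rw [sum_shift]
  refine (abs_sub _ _).trans ?_
  push_cast at h1
  linarith

/-- linear forms with coefficients indexed by `Fin (d + 1)` -/
noncomputable def lv (x : ℕ → ℝ) {d : ℕ} (a : Fin (d + 1) → ℝ) (n : ℕ) : ℝ :=
  ∑ i : Fin (d + 1), a i * x (n + i)

lemma lv_eq (x : ℕ → ℝ) {d : ℕ} (a : Fin (d + 1) → ℝ) (n : ℕ) :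
    lv x a n = lf x d (fun j => if h : j < d + 1 then a ⟨j, h⟩ else 0) n := by
  unfold lv lf
  rw [Finset.sum_range]
  refine Finset.sum_congr rfl fun i _ => ?_
  show a i * x (n + i) = (if h : (i : ℕ) < d + 1 then a ⟨i, h⟩ else 0) * x (n + i)
  rw [dif_pos i.2]

lemma lv_sub (x : ℕ → ℝ) {d : ℕ} (a b : Fin (d + 1) → ℝ) (n : ℕ) :
    lv x (a - b) n = lv x a n - lv x b n := by
  unfold lv
  rw [← Finset.sum_sub_distrib]
  refine Finset.sum_congr rfl fun i _ => ?_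
  rw [Pi.sub_apply, sub_mul]

lemma lv_smul (x : ℕ → ℝ) {d : ℕ} (r : ℝ) (a : Fin (d + 1) → ℝ) (n : ℕ) :
    lv x (r • a) n = r * lv x a n := by
  unfold lv
  rw [Finset.mul_sum]
  refine Finset.sum_congr rfl fun i _ => ?_
  rw [Pi.smul_apply, smul_eq_mul, mul_assoc]

lemma lv_sq (x : ℕ → ℝ) {d : ℕ} (a : Fin (d + 1) → ℝ) (n : ℕ) :
    lv x a n ^ 2 ≤ ‖a‖ ^ 2 * ((d + 1) * ∑ i : Fin (d + 1), x (n + i) ^ 2) := by
  unfold lv
  have h1 : (∑ i : Fin (d + 1), a i * x (n + i)) ^ 2 ≤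
      (d + 1) * ∑ i : Fin (d + 1), (a i * x (n + i)) ^ 2 := by
    have := sq_sum_le_card_mul_sum_sq (s := (univ : Finset (Fin (d + 1))))
      (f := fun i => a i * x (n + i))
    rw [card_univ, Fintype.card_fin] at this
    push_cast at this
    exact this
  refine h1.trans ?_
  have h2 : ∑ i : Fin (d + 1), (a i * x (n + i)) ^ 2 ≤
      ‖a‖ ^ 2 * ∑ i : Fin (d + 1), x (n + i) ^ 2 := by
    rw [Finset.mul_sum]
    refine Finset.sum_le_sum fun i _ => ?_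
    rw [mul_pow]
    apply mul_le_mul_of_nonneg_right _ (sq_nonneg _)
    have h3 := norm_le_pi_norm a i
    rw [Real.norm_eq_abs] at h3
    rw [← sq_abs (a i)]
    exact pow_le_pow_left₀ (abs_nonneg _) h3 2
  calc _ ≤ ((d : ℝ) + 1) * (‖a‖ ^ 2 * ∑ i : Fin (d + 1), x (n + i) ^ 2) :=
        mul_le_mul_of_nonneg_left h2 (by positivity)
    _ = _ := by ring

lemma lv_four (x : ℕ → ℝ) {d : ℕ} (a : Fin (d + 1) → ℝ) (n : ℕ) :
    lv x a n ^ 4 ≤ ‖a‖ ^ 4 * ((d + 1) ^ 3 * ∑ i : Fin (d + 1), x (n + i) ^ 4) := by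
  have h1 := lv_sq x a n
  have h0 : 0 ≤ lv x a n ^ 2 := sq_nonneg _
  have h2 : (∑ i : Fin (d + 1), x (n + i) ^ 2) ^ 2 ≤
      (d + 1) * ∑ i : Fin (d + 1), (x (n + i) ^ 2) ^ 2 := by
    have := sq_sum_le_card_mul_sum_sq (s := (univ : Finset (Fin (d + 1))))
      (f := fun i => x (n + i) ^ 2)
    rw [card_univ, Fintype.card_fin] at this
    push_cast at this
    exact this
  calc lv x a n ^ 4 = (lv x a n ^ 2) ^ 2 := by ring
    _ ≤ (‖a‖ ^ 2 * ((d + 1) * ∑ i : Fin (d + 1), x (n + i) ^ 2)) ^ 2 :=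
        pow_le_pow_left₀ h0 h1 2
    _ = ‖a‖ ^ 4 * (d + 1) ^ 2 * (∑ i : Fin (d + 1), x (n + i) ^ 2) ^ 2 := by ring
    _ ≤ ‖a‖ ^ 4 * (d + 1) ^ 2 * ((d + 1) * ∑ i : Fin (d + 1), (x (n + i) ^ 2) ^ 2) :=
        mul_le_mul_of_nonneg_left h2 (by positivity)
    _ = ‖a‖ ^ 4 * ((d + 1) ^ 3 * ∑ i : Fin (d + 1), (x (n + i) ^ 2) ^ 2) := by ring
    _ = _ := by
      congr 2
      exact Finset.sum_congr rfl fun i _ => by ring

/-- the second moments of the shifts -/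
lemma upper_sq {x : ℕ → ℝ} {V : ℝ} (h : ∀ᶠ N : ℕ in atTop, ∑ n ∈ Icc 1 N, x n ^ 2 ≤ V * N) (d : ℕ) :
    ∀ᶠ N : ℕ in atTop, ∀ a : Fin (d + 1) → ℝ,
      ∑ n ∈ Icc 1 N, lv x a n ^ 2 ≤ ‖a‖ ^ 2 * ((d + 1) ^ 2 * (V + 1)) * N := by
  have h1 : ∀ᶠ N : ℕ in atTop, ∀ i : Fin (d + 1), ∑ n ∈ Icc 1 N, x (n + i) ^ 2 ≤ (V + 1) * N :=
    Filter.eventually_all.2 fun i => shift_up (fun n => sq_nonneg (x n)) h i
  filter_upwards [h1] with N h1 a
  calc ∑ n ∈ Icc 1 N, lv x a n ^ 2 ≤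
      ∑ n ∈ Icc 1 N, ‖a‖ ^ 2 * ((d + 1) * ∑ i : Fin (d + 1), x (n + i) ^ 2) :=
        Finset.sum_le_sum fun n _ => lv_sq x a n
    _ = ‖a‖ ^ 2 * ((d + 1) * ∑ i : Fin (d + 1), ∑ n ∈ Icc 1 N, x (n + i) ^ 2) := by
        rw [← Finset.mul_sum, ← Finset.mul_sum, Finset.sum_comm]
    _ ≤ ‖a‖ ^ 2 * ((d + 1) * ∑ i : Fin (d + 1), (V + 1) * N) := by
        apply mul_le_mul_of_nonneg_left _ (sq_nonneg _)
        apply mul_le_mul_of_nonneg_left _ (by positivity)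
        exact Finset.sum_le_sum fun i _ => h1 i
    _ = _ := by
        rw [Finset.sum_const, card_univ, Fintype.card_fin, nsmul_eq_mul]
        push_cast
        ring

lemma upper_four {x : ℕ → ℝ} {K : ℝ} (h : ∀ᶠ N : ℕ in atTop, ∑ n ∈ Icc 1 N, x n ^ 4 ≤ K * N) (d : ℕ) :
    ∀ᶠ N : ℕ in atTop, ∀ a : Fin (d + 1) → ℝ,
      ∑ n ∈ Icc 1 N, lv x a n ^ 4 ≤ ‖a‖ ^ 4 * ((d + 1) ^ 4 * (K + 1)) * N := by
  have h1 : ∀ᶠ N : ℕ in atTop, ∀ i : Fin (d + 1), ∑ n ∈ Icc 1 N, x (n + i) ^ 4 ≤ (K + 1) * N :=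
    Filter.eventually_all.2 fun i => shift_up (fun n => by positivity) h i
  filter_upwards [h1] with N h1 a
  calc ∑ n ∈ Icc 1 N, lv x a n ^ 4 ≤
      ∑ n ∈ Icc 1 N, ‖a‖ ^ 4 * ((d + 1) ^ 3 * ∑ i : Fin (d + 1), x (n + i) ^ 4) :=
        Finset.sum_le_sum fun n _ => lv_four x a n
    _ = ‖a‖ ^ 4 * ((d + 1) ^ 3 * ∑ i : Fin (d + 1), ∑ n ∈ Icc 1 N, x (n + i) ^ 4) := by
        rw [← Finset.mul_sum, ← Finset.mul_sum, Finset.sum_comm]
    _ ≤ ‖a‖ ^ 4 * ((d + 1) ^ 3 * ∑ i : Fin (d + 1), (K + 1) * N) := by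
        apply mul_le_mul_of_nonneg_left _ (by positivity)
        apply mul_le_mul_of_nonneg_left _ (by positivity)
        exact Finset.sum_le_sum fun i _ => h1 i
    _ = _ := by
        rw [Finset.sum_const, card_univ, Fintype.card_fin, nsmul_eq_mul]
        push_cast
        ring

/-- uniformity on the sphere -/
theorem sphere_pos {x : ℕ → ℝ} {V c0 : ℝ} (hg : LogGrowth x) (hV0 : 0 ≤ V) (hv : SmallVar x V)
    (hc0 : 0 < c0) (hl : LowerVar x c0) (d : ℕ) :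
    ∃ c : ℝ, 0 < c ∧ ∀ᶠ N : ℕ in atTop, ∀ a : Fin (d + 1) → ℝ, ‖a‖ = 1 →
      c * N ≤ ∑ n ∈ Icc 1 N, lv x a n ^ 2 := by
  have hv1 : ∀ᶠ N : ℕ in atTop, ∑ n ∈ Icc 1 N, x n ^ 2 ≤ V * N := by
    filter_upwards [hv 1 le_rfl] with N h
    simpa using h
  have hup := upper_sq hv1 d
  have key : ∃ c : ℝ, 0 < c ∧ ∀ᶠ N : ℕ in atTop,
      ∀ a ∈ Metric.sphere (0 : Fin (d + 1) → ℝ) 1, c * N ≤ ∑ n ∈ Icc 1 N, lv x a n ^ 2 := by
    refine IsCompact.induction_on (isCompact_sphere (0 : Fin (d + 1) → ℝ) 1)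
      (p := fun s => ∃ c : ℝ, 0 < c ∧ ∀ᶠ N : ℕ in atTop,
        ∀ a ∈ s, c * N ≤ ∑ n ∈ Icc 1 N, lv x a n ^ 2) ?_ ?_ ?_ ?_
    · exact ⟨1, one_pos, Filter.Eventually.of_forall fun N a ha => absurd ha (Set.notMem_empty a)⟩
    · rintro s t hst ⟨c, hc, h⟩
      exact ⟨c, hc, h.mono fun N hN a ha => hN a (hst ha)⟩
    · rintro s t ⟨c, hc, h⟩ ⟨c', hc', h'⟩
      refine ⟨min c c', lt_min hc hc', ?_⟩
      filter_upwards [h, h'] with N h h' a ha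
      have hN : (0 : ℝ) ≤ N := Nat.cast_nonneg N
      rcases ha with ha | ha
      · exact (mul_le_mul_of_nonneg_right (min_le_left _ _) hN).trans (h a ha)
      · exact (mul_le_mul_of_nonneg_right (min_le_right _ _) hN).trans (h' a ha)
    · intro a ha
      rw [mem_sphere_zero_iff_norm] at ha
      have ha0 : a ≠ 0 := by
        intro h
        rw [h, norm_zero] at ha
        exact zero_ne_one ha
      obtain ⟨i, hi⟩ := Function.ne_iff.1 ha0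
      obtain ⟨c, hc, h⟩ := form_pos hg hV0 hv hc0 hl d
        (fun j => if h : j < d + 1 then a ⟨j, h⟩ else 0) ⟨i, by omega, by
          rw [dif_pos i.2]
          exact hi⟩
      simp only [← lv_eq] at h
      set W : ℝ := (d + 1) ^ 2 * (V + 1) with hW
      have hW0 : 0 < W := by positivity
      set r : ℝ := Real.sqrt (c / (4 * W)) with hr
      have hr0 : 0 < r := by positivity
      have hr2 : r ^ 2 * W = c / 4 := by
        rw [hr, Real.sq_sqrt (by positivity)]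
        field_simp
      refine ⟨Metric.ball a r, mem_nhdsWithin_of_mem_nhds (Metric.ball_mem_nhds a hr0), c / 4,
        by positivity, ?_⟩
      filter_upwards [h, hup] with N h1 h2 b hb
      have hN : (0 : ℝ) ≤ N := Nat.cast_nonneg N
      have h3 := h2 (a - b)
      have h4 : ‖a - b‖ ≤ r := by
        rw [Metric.mem_ball, dist_comm, dist_eq_norm] at hb
        exact hb.le
      have h5 : ‖a - b‖ ^ 2 ≤ r ^ 2 := pow_le_pow_left₀ (norm_nonneg _) h4 2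
      have h6 : ‖a - b‖ ^ 2 * W * N ≤ c / 4 * N := by
        rw [← hr2]
        exact mul_le_mul_of_nonneg_right (mul_le_mul_of_nonneg_right h5 hW0.le) hN
      have h7 : ∑ n ∈ Icc 1 N, lv x a n ^ 2 ≤
          2 * ∑ n ∈ Icc 1 N, lv x b n ^ 2 + 2 * ∑ n ∈ Icc 1 N, lv x (a - b) n ^ 2 := by
        rw [Finset.mul_sum, Finset.mul_sum, ← Finset.sum_add_distrib]
        refine Finset.sum_le_sum fun n _ => ?_
        rw [lv_sub]
        nlinarith [sq_nonneg (lv x a n - 2 * lv x b n)]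
      linarith
  obtain ⟨c, hc, h⟩ := key
  refine ⟨c, hc, h.mono fun N hN a ha => hN a (mem_sphere_zero_iff_norm.2 ha)⟩

/-- the variance -/
theorem var_pos {x : ℕ → ℝ} {V c0 : ℝ} (hg : LogGrowth x) (hV0 : 0 ≤ V) (hv : SmallVar x V)
    (hc0 : 0 < c0) (hl : LowerVar x c0) (d : ℕ) :
    ∃ c : ℝ, 0 < c ∧ ∀ᶠ N : ℕ in atTop, ∀ a : Fin (d + 1) → ℝ, ‖a‖ = 1 → ∀ b : ℝ,
      c * (1 + b ^ 2) * N ≤ ∑ n ∈ Icc 1 N, (lv x a n - b) ^ 2 := by
  obtain ⟨c, hc, h⟩ := sphere_pos hg hV0 hv hc0 hl d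
  set c' : ℝ := min (c / 2) (1 / 2) with hc'
  have hc'0 : 0 < c' := lt_min (by positivity) (by norm_num)
  have hm : ∀ᶠ N : ℕ in atTop, ∀ i : Fin (d + 1),
      |∑ n ∈ Icc 1 N, x (n + i)| ≤ c' / (d + 1) * N :=
    Filter.eventually_all.2 fun i => shift_mean (fun ε hε => mean_zero hg hv ε hε) i _
      (by positivity)
  refine ⟨c', hc'0, ?_⟩
  filter_upwards [h, hm] with N h1 h2 a ha b
  have hN : (0 : ℝ) ≤ N := Nat.cast_nonneg N
  have h3 : |∑ n ∈ Icc 1 N, lv x a n| ≤ c' * N := by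
    have e : ∑ n ∈ Icc 1 N, lv x a n = ∑ i : Fin (d + 1), a i * ∑ n ∈ Icc 1 N, x (n + i) := by
      unfold lv
      rw [Finset.sum_comm]
      exact Finset.sum_congr rfl fun i _ => by rw [Finset.mul_sum]
    rw [e]
    have h4 : ∀ i ∈ (univ : Finset (Fin (d + 1))), |a i * ∑ n ∈ Icc 1 N, x (n + i)| ≤
        c' / (d + 1) * N := by
      intro i _
      rw [abs_mul]
      have h5 : |a i| ≤ 1 := by
        rw [← ha, ← Real.norm_eq_abs]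
        exact norm_le_pi_norm a i
      calc |a i| * |∑ n ∈ Icc 1 N, x (n + i)| ≤ 1 * (c' / (d + 1) * N) :=
            mul_le_mul h5 (h2 i) (abs_nonneg _) zero_le_one
        _ = _ := one_mul _
    refine (Finset.abs_sum_le_sum_abs _ _).trans ((Finset.sum_le_sum h4).trans ?_)
    rw [Finset.sum_const, card_univ, Fintype.card_fin, nsmul_eq_mul]
    push_cast
    apply le_of_eq
    field_simp
  have h4 : ∑ n ∈ Icc 1 N, (lv x a n - b) ^ 2 =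
      ∑ n ∈ Icc 1 N, lv x a n ^ 2 - 2 * b * ∑ n ∈ Icc 1 N, lv x a n + b ^ 2 * N := by
    have e : ∀ n ∈ Icc 1 N, (lv x a n - b) ^ 2 = lv x a n ^ 2 - 2 * b * lv x a n + b ^ 2 :=
      fun n _ => by ring
    rw [Finset.sum_congr rfl e, Finset.sum_add_distrib, Finset.sum_sub_distrib, ← Finset.mul_sum,
      Finset.sum_const, Nat.card_Icc, Nat.add_sub_cancel, nsmul_eq_mul]
    ring
  rw [h4]
  have h5 := h1 a ha
  have h6 : 2 * b * ∑ n ∈ Icc 1 N, lv x a n ≤ (1 + b ^ 2) * (c' * N) := by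
    calc 2 * b * ∑ n ∈ Icc 1 N, lv x a n ≤ |2 * b * ∑ n ∈ Icc 1 N, lv x a n| := le_abs_self _
      _ = 2 * |b| * |∑ n ∈ Icc 1 N, lv x a n| := by rw [abs_mul, abs_mul, abs_two]
      _ ≤ (1 + b ^ 2) * (c' * N) := by
          apply mul_le_mul _ h3 (abs_nonneg _) (by positivity)
          rw [← sq_abs b]
          nlinarith [sq_nonneg (|b| - 1)]
  have h7 : c' ≤ c / 2 := min_le_left _ _
  have h8 : c' ≤ 1 / 2 := min_le_right _ _
  have h9 : c' * (1 + b ^ 2) * N + (1 + b ^ 2) * (c' * N) ≤ c * N + b ^ 2 * N := by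
    have g1 : 2 * c' * N ≤ c * N := mul_le_mul_of_nonneg_right (by linarith) hN
    have g2 : 2 * c' * (b ^ 2 * N) ≤ 1 * (b ^ 2 * N) :=
      mul_le_mul_of_nonneg_right (by linarith) (by positivity)
    nlinarith
  linarith

/-- **counting** -/
theorem count {x : ℕ → ℝ} {V c0 : ℝ} (hg : LogGrowth x) (hV0 : 0 ≤ V) (hv : SmallVar x V)
    (hc0 : 0 < c0) (hl : LowerVar x c0)
    (h4 : ∃ K : ℝ, ∀ᶠ N : ℕ in atTop, ∑ n ∈ Icc 1 N, x n ^ 4 ≤ K * N) (d : ℕ) :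
    ∃ c : ℝ, 0 < c ∧ ∀ᶠ N : ℕ in atTop, ∀ a : Fin (d + 1) → ℝ, ‖a‖ = 1 → ∀ b : ℝ,
      c * N ≤ (((Icc 1 N).filter (fun n => c ≤ |lv x a n - b|)).card : ℝ) := by
  obtain ⟨c1, hc1, h1⟩ := var_pos hg hV0 hv hc0 hl d
  obtain ⟨K0, hK⟩ := h4
  obtain ⟨K, hKK, hKp⟩ : ∃ K : ℝ, K0 ≤ K ∧ 0 ≤ K := ⟨max K0 0, le_max_left _ _, le_max_right _ _⟩
  have hK' : ∀ᶠ N : ℕ in atTop, ∑ n ∈ Icc 1 N, x n ^ 4 ≤ K * N := by
    filter_upwards [hK] with N hN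
    exact hN.trans (mul_le_mul_of_nonneg_right hKK (Nat.cast_nonneg N))
  have h2 := upper_four hK' d
  set W : ℝ := 8 * ((d + 1) ^ 4 * (K + 1)) + 8 with hW
  have hW0 : 0 < W := by positivity
  set c : ℝ := min (min (Real.sqrt (c1 / 2)) (c1 ^ 2 / (4 * W))) 1 with hc
  have hcp : 0 < c := lt_min (lt_min (by positivity) (by positivity)) one_pos
  refine ⟨c, hcp, ?_⟩
  filter_upwards [h1, h2, eventually_gt_atTop 0] with N h1 h2 hN0 a ha b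
  have hN : (0 : ℝ) < N := by exact_mod_cast hN0
  set Y : ℕ → ℝ := fun n => lv x a n - b with hY
  set S := (Icc 1 N).filter (fun n => c ≤ |Y n|) with hS
  have g1 : c1 * (1 + b ^ 2) * N ≤ ∑ n ∈ Icc 1 N, Y n ^ 2 := h1 a ha b
  have g2 : ∑ n ∈ Icc 1 N, Y n ^ 4 ≤ W * (1 + b ^ 2) ^ 2 * N := by
    have e1 : ∀ n ∈ Icc 1 N, Y n ^ 4 ≤ 8 * lv x a n ^ 4 + 8 * b ^ 4 := by
      intro n _
      rw [hY]
      simp only
      have e2 : (lv x a n - b) ^ 2 ≤ 2 * lv x a n ^ 2 + 2 * b ^ 2 := by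
        nlinarith [sq_nonneg (lv x a n + b)]
      have e3 : (lv x a n - b) ^ 4 = ((lv x a n - b) ^ 2) ^ 2 := by ring
      rw [e3]
      have e4 : ((lv x a n - b) ^ 2) ^ 2 ≤ (2 * lv x a n ^ 2 + 2 * b ^ 2) ^ 2 :=
        pow_le_pow_left₀ (sq_nonneg _) e2 2
      nlinarith [sq_nonneg (lv x a n ^ 2 - b ^ 2)]
    refine (Finset.sum_le_sum e1).trans ?_
    rw [Finset.sum_add_distrib, ← Finset.mul_sum, Finset.sum_const, Nat.card_Icc,
      Nat.add_sub_cancel, nsmul_eq_mul]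
    have e5 := h2 a
    rw [ha, one_pow, one_mul] at e5
    have e6 : W * (1 + b ^ 2) ^ 2 * N = (8 * ((d + 1) ^ 4 * (K + 1)) * (1 + b ^ 2) ^ 2) * N +
        8 * (1 + b ^ 2) ^ 2 * N := by
      rw [hW]; ring
    rw [e6]
    have e7 : (1 : ℝ) ≤ (1 + b ^ 2) ^ 2 := one_le_pow₀ (by nlinarith [sq_nonneg b])
    have e8 : b ^ 4 ≤ (1 + b ^ 2) ^ 2 := by nlinarith [sq_nonneg b, sq_nonneg (b ^ 2)]
    have e9 : 8 * (((d : ℝ) + 1) ^ 4 * (K + 1)) * N ≤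
        (8 * ((d + 1) ^ 4 * (K + 1)) * (1 + b ^ 2) ^ 2) * N := by
      apply mul_le_mul_of_nonneg_right _ hN.le
      apply le_mul_of_one_le_right (by positivity) e7
    have e10 : (N : ℝ) * (8 * b ^ 4) ≤ 8 * (1 + b ^ 2) ^ 2 * N := by nlinarith
    linarith
  have g3 : ∑ n ∈ (Icc 1 N).filter (fun n => ¬ c ≤ |Y n|), Y n ^ 2 ≤ c1 / 2 * (1 + b ^ 2) * N := by
    have e1 : ∀ n ∈ (Icc 1 N).filter (fun n => ¬ c ≤ |Y n|), Y n ^ 2 ≤ c1 / 2 := by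
      intro n hn
      have e2 := (mem_filter.1 hn).2
      push Not at e2
      have e3 : |Y n| ≤ Real.sqrt (c1 / 2) := e2.le.trans ((min_le_left _ _).trans (min_le_left _ _))
      rw [← sq_abs]
      calc |Y n| ^ 2 ≤ Real.sqrt (c1 / 2) ^ 2 := pow_le_pow_left₀ (abs_nonneg _) e3 2
        _ = c1 / 2 := Real.sq_sqrt (by positivity)
    refine (Finset.sum_le_sum e1).trans ?_
    rw [Finset.sum_const, nsmul_eq_mul]
    have e2 : (((Icc 1 N).filter (fun n => ¬ c ≤ |Y n|)).card : ℝ) ≤ N := by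
      have := Finset.card_filter_le (Icc 1 N) (fun n => ¬ c ≤ |Y n|)
      rw [Nat.card_Icc, Nat.add_sub_cancel] at this
      exact_mod_cast this
    have e3 : (1 : ℝ) ≤ 1 + b ^ 2 := by nlinarith [sq_nonneg b]
    have e4 : (((Icc 1 N).filter (fun n => ¬ c ≤ |Y n|)).card : ℝ) * (c1 / 2) ≤ N * (c1 / 2) :=
      mul_le_mul_of_nonneg_right e2 (by positivity)
    have e5 : (N : ℝ) * (c1 / 2) * 1 ≤ N * (c1 / 2) * (1 + b ^ 2) :=
      mul_le_mul_of_nonneg_left e3 (by positivity)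
    linarith
  have g4 : c1 / 2 * (1 + b ^ 2) * N ≤ ∑ n ∈ S, Y n ^ 2 := by
    have e1 := Finset.sum_filter_add_sum_filter_not (Icc 1 N) (fun n => c ≤ |Y n|)
      (fun n => Y n ^ 2)
    have e2 : c1 * (1 + b ^ 2) * N = c1 / 2 * (1 + b ^ 2) * N + c1 / 2 * (1 + b ^ 2) * N := by ring
    rw [hS]
    linarith
  have g5 : (∑ n ∈ S, Y n ^ 2) ^ 2 ≤ (S.card : ℝ) * ∑ n ∈ S, (Y n ^ 2) ^ 2 :=
    sq_sum_le_card_mul_sum_sq
  have g6 : ∑ n ∈ S, (Y n ^ 2) ^ 2 ≤ W * (1 + b ^ 2) ^ 2 * N := by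
    refine le_trans ?_ g2
    calc ∑ n ∈ S, (Y n ^ 2) ^ 2 ≤ ∑ n ∈ Icc 1 N, (Y n ^ 2) ^ 2 :=
          Finset.sum_le_sum_of_subset_of_nonneg (Finset.filter_subset _ _)
            fun _ _ _ => sq_nonneg _
      _ = _ := Finset.sum_congr rfl fun n _ => by ring
  have g7 : (c1 / 2 * (1 + b ^ 2) * N) ^ 2 ≤ (S.card : ℝ) * (W * (1 + b ^ 2) ^ 2 * N) := by
    calc (c1 / 2 * (1 + b ^ 2) * N) ^ 2 ≤ (∑ n ∈ S, Y n ^ 2) ^ 2 :=
          pow_le_pow_left₀ (by positivity) g4 2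
      _ ≤ _ := g5
      _ ≤ _ := mul_le_mul_of_nonneg_left g6 (Nat.cast_nonneg _)
  have g8 : (c1 / 2 * (1 + b ^ 2) * N) ^ 2 =
      (c1 ^ 2 / (4 * W) * N) * (W * (1 + b ^ 2) ^ 2 * N) := by
    field_simp
    ring
  rw [g8] at g7
  have g9 : c1 ^ 2 / (4 * W) * N ≤ (S.card : ℝ) := le_of_mul_le_mul_right g7 (by positivity)
  refine le_trans ?_ g9
  exact mul_le_mul_of_nonneg_right ((min_le_left _ _).trans (min_le_right _ _)) hN.le

end Pool.Agent.P8H60.GapLin
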