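import Pool.Agent.R846.NC.Zeta
import Pool.Agent.P8H60.GapLin.Lower
import Pool.Agent.P8H60.GapLin.Unif
import Pool.Agent.P8H60.GapLin.Layer

/-! # No approximate linear relation between consecutive gaps of the zeta zeros -/

set_option autoImplicit false

open Filter Topology Set

namespace Pool.Agent.P8H60.GapLin

open SG (ord NZ)
open LG (dlt gap_uniform)
open SP (RHs)
open Pool.Agent.Y743.LR (dl ord_tendsto ord_step)
open Pool.Agent.R846.NC (LogGrowth SmallVar logGrowth smallVar dl_nonneg' dl_le_dlt)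

/-- the tail in terms of finsets -/
lemma tail (hRH : RHs) : ∃ c : ℝ, ∃ k0 : ℕ, 0 < c ∧ 3 ≤ k0 ∧ ∀ N k : ℕ, k0 ≤ k →
    (((Finset.Icc 1 N).filter (fun n => (k : ℝ) ≤ dlt n)).card : ℝ) ≤
      N * Real.exp (-(c * k)) := by
  classical
  obtain ⟨c, y0, hc, hy0, h⟩ := gap_uniform hRH
  refine ⟨c, max ⌈y0⌉₊ 3, hc, le_max_right _ _, fun N k hk => ?_⟩
  have hk1 : y0 ≤ k := (Nat.le_ceil y0).trans (by exact_mod_cast (le_max_left _ _).trans hk)
  have hk3 : (3 : ℝ) ≤ k := by exact_mod_cast (le_max_right _ _).trans hk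
  rcases Nat.eq_zero_or_pos N with h0 | h0
  · subst h0
    simp
  · have h1 := h N h0 k hk1
    have e : {n : ℕ | 1 ≤ n ∧ n ≤ N ∧ (k : ℝ) ≤ dlt n} =
        ((Finset.Icc 1 N).filter (fun n => (k : ℝ) ≤ dlt n) : Finset ℕ) := by
      ext n
      simp [and_assoc]
    rw [e, Set.ncard_coe_finset] at h1
    refine h1.trans ?_
    apply mul_le_mul_of_nonneg_left _ (Nat.cast_nonneg N)
    apply Real.exp_le_exp.2
    have hlog : 1 ≤ Real.log k := by
      rw [Real.le_log_iff_exp_le (by linarith)]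
      have := Real.exp_one_lt_d9
      linarith
    have : c * k * 1 ≤ c * k * Real.log k := mul_le_mul_of_nonneg_left hlog (by positivity)
    linarith

/-- the fourth moment -/
theorem four (hRH : RHs) : ∃ K : ℝ, ∀ᶠ N : ℕ in atTop,
    ∑ n ∈ Finset.Icc 1 N, (dl n - 1) ^ 4 ≤ K * N := by
  classical
  obtain ⟨c, k0, hc, hk0, h⟩ := tail hRH
  obtain ⟨K, hK, hlay⟩ := layer c hc k0
  obtain ⟨n0, hn01, hn0⟩ := dl_nonneg'
  set A : ℝ := ∑ n ∈ Finset.range n0, (dl n - 1) ^ 4 with hA
  have hA0 : 0 ≤ A := Finset.sum_nonneg fun n _ => by positivity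
  refine ⟨K + 1 + A, ?_⟩
  filter_upwards [eventually_ge_atTop 1] with N hN
  have hN1 : (1 : ℝ) ≤ N := by exact_mod_cast hN
  have h1 := hlay (fun n => max (dlt n) 0) N (fun n => le_max_right _ _) (by
    intro k hk
    have e : (Finset.Icc 1 N).filter (fun n => (k : ℝ) ≤ max (dlt n) 0) =
        (Finset.Icc 1 N).filter (fun n => (k : ℝ) ≤ dlt n) := by
      apply Finset.filter_congr
      intro n _
      have hk3 : (0 : ℝ) < k := by
        have : 0 < k := by omega
        exact_mod_cast this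
      rw [le_max_iff]
      constructor
      · rintro (h | h)
        · exact h
        · linarith
      · exact Or.inl
    rw [e]
    exact h N k hk)
  have h2 : ∀ n ∈ Finset.Icc 1 N, (dl n - 1) ^ 4 ≤
      (max (dlt n) 0) ^ 4 + 1 + (if n < n0 then (dl n - 1) ^ 4 else 0) := by
    intro n hn
    have hn1 : 1 ≤ n := (Finset.mem_Icc.1 hn).1
    split_ifs with hlt
    · have : 0 ≤ (max (dlt n) 0) ^ 4 := by positivity
      linarith
    · have g1 := hn0 n (not_lt.1 hlt)
      have g2 := (dl_le_dlt hn1).trans (le_max_left (dlt n) 0)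
      have g3 : dl n ^ 4 ≤ (max (dlt n) 0) ^ 4 := pow_le_pow_left₀ g1 g2 4
      rcases le_total (dl n) 2 with g4 | g4
      · have g5 : |dl n - 1| ≤ 1 := by
          rw [abs_le]
          constructor <;> linarith
        have g6 : (dl n - 1) ^ 4 ≤ 1 := by
          have e : (dl n - 1) ^ 4 = |dl n - 1| ^ 4 := by
            rw [show (4 : ℕ) = 2 * 2 by norm_num, pow_mul, pow_mul, sq_abs]
          rw [e]
          exact pow_le_one₀ (abs_nonneg _) g5
        have : 0 ≤ (max (dlt n) 0) ^ 4 := by positivity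
        linarith
      · have g5 : (dl n - 1) ^ 4 ≤ dl n ^ 4 := pow_le_pow_left₀ (by linarith) (by linarith) 4
        linarith
  refine (Finset.sum_le_sum h2).trans ?_
  rw [Finset.sum_add_distrib, Finset.sum_add_distrib, Finset.sum_const, Nat.card_Icc,
    Nat.add_sub_cancel, nsmul_eq_mul, mul_one]
  have h3 : ∑ n ∈ Finset.Icc 1 N, (if n < n0 then (dl n - 1) ^ 4 else 0) ≤ A := by
    rw [← Finset.sum_filter]
    apply Finset.sum_le_sum_of_subset_of_nonneg
    · intro n hn
      exact Finset.mem_range.2 (Finset.mem_filter.1 hn).2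
    · intro n _ _
      positivity
  have h4 : A * 1 ≤ A * N := mul_le_mul_of_nonneg_left hN1 hA0
  linarith

/-- the two normalisations agree for most gaps -/
lemma close (U ε : ℝ) (hU : 1 ≤ U) (hε : 0 < ε) : ∃ n1 : ℕ, ∀ n : ℕ, n1 ≤ n → dlt n ≤ U →
    |dlt n - dl n| ≤ ε := by
  have hpi := Real.pi_gt_three
  have hpi4 := Real.pi_le_four
  have hl0 : 0 ≤ Real.log (2 * Real.pi) := Real.log_nonneg (by linarith)
  obtain ⟨n1, h⟩ := ((ord_tendsto.eventually_ge_atTop (2 * Real.pi * U)).and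
    ((Real.tendsto_log_atTop.comp ord_tendsto).eventually_ge_atTop
      ((2 + Real.log (2 * Real.pi)) * U / ε))).exists_forall_of_atTop
  refine ⟨max 1 n1, fun n hn hdu => ?_⟩
  have hn1 : 1 ≤ n := (le_max_left _ _).trans hn
  obtain ⟨h1, h2⟩ := h n ((le_max_right _ _).trans hn)
  simp only [Function.comp] at h2
  have hx : 0 < ord n := SG.ord_pos hn1
  have hst := ord_step hn1
  have hx' : 0 < ord (n + 1) := hx.trans_le hst
  set g := ord (n + 1) - ord n with hg
  have hg0 : 0 ≤ g := sub_nonneg.2 hst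
  have hL0 : 0 < Real.log (ord n) := lt_of_lt_of_le (by positivity) h2
  -- the gap is small
  have e1 : g * (Real.log (ord n) + 1) ≤ 2 * Real.pi * U := by
    have q1 := H177.Lat.xlog_low hx hst
    have q2 : ord (n + 1) * Real.log (ord (n + 1)) - ord n * Real.log (ord n) =
        2 * Real.pi * dlt n := by
      unfold LG.dlt
      field_simp
    rw [q2] at q1
    exact q1.trans (mul_le_mul_of_nonneg_left hdu (by positivity))
  have e2 : g ≤ ord n := by
    have : g * 1 ≤ g * (Real.log (ord n) + 1) := mul_le_mul_of_nonneg_left (by linarith) hg0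
    linarith
  have e3 : Real.log (ord (n + 1)) ≤ Real.log (ord n) + 1 := by
    have q1 := Real.log_le_sub_one_of_pos (div_pos hx' hx)
    rw [Real.log_div hx'.ne' hx.ne'] at q1
    have q2 : ord (n + 1) / ord n - 1 ≤ 1 := by
      have : ord (n + 1) / ord n ≤ 2 := by
        rw [div_le_iff₀ hx]
        linarith
      linarith
    linarith
  -- the difference
  have e4 : dlt n - dl n ≤ g * (2 + Real.log (2 * Real.pi)) / (2 * Real.pi) := by
    unfold LG.dlt dl
    rw [← sub_div]
    apply div_le_div_of_nonneg_right _ (by positivity)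
    have q1 := H370.A3.xlog_aux hx hst
    have q2 : Real.log (ord n / (2 * Real.pi)) = Real.log (ord n) - Real.log (2 * Real.pi) :=
      Real.log_div hx.ne' (by positivity)
    rw [q2, ← hg]
    have q3 : g * (Real.log (ord (n + 1)) + 1) ≤ g * (Real.log (ord n) + 2) :=
      mul_le_mul_of_nonneg_left (by linarith) hg0
    rw [← hg] at q1
    linarith
  rw [abs_of_nonneg (sub_nonneg.2 (dl_le_dlt hn1))]
  refine e4.trans ?_
  rw [div_le_iff₀ (by positivity)]
  rw [div_le_iff₀ hε] at h2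
  have e5 : g * Real.log (ord n) ≤ 2 * Real.pi * U := by linarith
  have e6 : g * (2 + Real.log (2 * Real.pi)) * Real.log (ord n) ≤
      ε * (2 * Real.pi) * Real.log (ord n) := by
    calc g * (2 + Real.log (2 * Real.pi)) * Real.log (ord n) =
        (g * Real.log (ord n)) * (2 + Real.log (2 * Real.pi)) := by ring
      _ ≤ (2 * Real.pi * U) * (2 + Real.log (2 * Real.pi)) :=
          mul_le_mul_of_nonneg_right e5 (by positivity)
      _ = 2 * Real.pi * ((2 + Real.log (2 * Real.pi)) * U) := by ring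
      _ ≤ 2 * Real.pi * (Real.log (ord n) * ε) := mul_le_mul_of_nonneg_left h2 (by positivity)
      _ = _ := by ring
  exact le_of_mul_le_mul_right e6 hL0

/-- few large gaps -/
lemma few (hRH : RHs) (d : ℕ) (ε : ℝ) (hε : 0 < ε) : ∃ U : ℝ, 1 ≤ U ∧ ∀ᶠ N : ℕ in atTop,
    (((Finset.Icc 1 N).filter (fun n => ∃ i : Fin (d + 1), U < dlt (n + i))).card : ℝ) ≤ ε * N := by
  classical
  obtain ⟨c, k0, hc, hk0, h⟩ := tail hRH
  have hlim : Tendsto (fun k : ℕ => Real.exp (-(c * k))) atTop (𝓝 0) := by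
    apply Real.tendsto_exp_neg_atTop_nhds_zero.comp
    exact tendsto_natCast_atTop_atTop.const_mul_atTop hc
  obtain ⟨k, hk, hkk⟩ := ((hlim.eventually_lt_const
    (by positivity : 0 < ε / (2 * (d + 1)))).and (eventually_ge_atTop k0)).exists
  refine ⟨k, by
    have : 1 ≤ k := by omega
    exact_mod_cast this, ?_⟩
  filter_upwards [eventually_ge_atTop (d + 1)] with N hN
  have h1 : (Finset.Icc 1 N).filter (fun n => ∃ i : Fin (d + 1), (k : ℝ) < dlt (n + i)) ⊆
      (Finset.univ : Finset (Fin (d + 1))).biUnion (fun i =>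
        (Finset.Icc 1 N).filter (fun n => (k : ℝ) ≤ dlt (n + i))) := by
    intro n hn
    obtain ⟨g1, i, g2⟩ := Finset.mem_filter.1 hn
    exact Finset.mem_biUnion.2 ⟨i, Finset.mem_univ _, Finset.mem_filter.2 ⟨g1, g2.le⟩⟩
  have h2 := (Finset.card_le_card h1).trans Finset.card_biUnion_le
  have h3 : ∀ i : Fin (d + 1), (((Finset.Icc 1 N).filter
      (fun n => (k : ℝ) ≤ dlt (n + i))).card : ℝ) ≤ 2 * N * Real.exp (-(c * k)) := by
    intro i
    have g1 : ((Finset.Icc 1 N).filter (fun n => (k : ℝ) ≤ dlt (n + i))).card ≤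
        ((Finset.Icc 1 (N + i)).filter (fun n => (k : ℝ) ≤ dlt n)).card := by
      refine Finset.card_le_card_of_injOn (fun n => n + i) ?_ (fun x _ z _ h => by simpa using h)
      intro n hn
      have hn' := Finset.mem_filter.1 (Finset.mem_coe.1 hn)
      have hn2 := Finset.mem_Icc.1 hn'.1
      rw [Finset.mem_coe, Finset.mem_filter, Finset.mem_Icc]
      have q1 : 1 ≤ n + (i : ℕ) := by omega
      have q2 : n + (i : ℕ) ≤ N + (i : ℕ) := by omega
      exact ⟨⟨q1, q2⟩, hn'.2⟩
    have g2 := h (N + i) k hkk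
    have g3 : ((N + (i : ℕ) : ℕ) : ℝ) ≤ 2 * N := by
      have : N + (i : ℕ) ≤ 2 * N := by omega
      exact_mod_cast this
    calc (((Finset.Icc 1 N).filter (fun n => (k : ℝ) ≤ dlt (n + i))).card : ℝ) ≤
        (((Finset.Icc 1 (N + i)).filter (fun n => (k : ℝ) ≤ dlt n)).card : ℝ) := by
          exact_mod_cast g1
      _ ≤ _ := g2
      _ ≤ _ := mul_le_mul_of_nonneg_right g3 (Real.exp_pos _).le
  have h4 : (((Finset.Icc 1 N).filter
      (fun n => ∃ i : Fin (d + 1), (k : ℝ) < dlt (n + i))).card : ℝ) ≤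
      ∑ i : Fin (d + 1), 2 * N * Real.exp (-(c * k)) := by
    refine le_trans ?_ (Finset.sum_le_sum fun i _ => h3 i)
    exact_mod_cast h2
  rw [Finset.sum_const, Finset.card_univ, Fintype.card_fin, nsmul_eq_mul] at h4
  refine h4.trans ?_
  push_cast
  have h5 : Real.exp (-(c * k)) * (2 * (d + 1)) ≤ ε := by
    rw [lt_div_iff₀ (by positivity)] at hk
    exact hk.le
  have hN0 : (0 : ℝ) ≤ N := Nat.cast_nonneg N
  calc ((d : ℝ) + 1) * (2 * N * Real.exp (-(c * k))) = Real.exp (-(c * k)) * (2 * (d + 1)) * N := by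
        ring
    _ ≤ ε * N := mul_le_mul_of_nonneg_right h5 hN0

/-- **no approximate linear relation between consecutive gaps** -/
theorem final (hRH : RiemannHypothesis) (d : ℕ) : ∃ c : ℝ, 0 < c ∧ ∀ᶠ N : ℕ in atTop,
    ∀ a : Fin (d + 1) → ℝ, (∃ i, 1 ≤ |a i|) → ∀ b : ℝ,
      c * N ≤ ({n : ℕ | 1 ≤ n ∧ n ≤ N ∧
        c ≤ |∑ i : Fin (d + 1), a i * dlt (n + i) - b|}.ncard : ℝ) := by
  classical
  have hR := H177.Lat.rhs_of hRH
  obtain ⟨V0, hV0⟩ := smallVar hR
  obtain ⟨V, hV, hVV⟩ : ∃ V : ℝ, 0 ≤ V ∧ V0 ≤ V := ⟨max V0 0, le_max_right _ _, le_max_left _ _⟩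
  have hv : SmallVar (fun n => dl n - 1) V := by
    intro m hm
    filter_upwards [hV0 m hm] with N h
    refine h.trans ?_
    have : 0 ≤ (1 + Real.log m) ^ 2 := sq_nonneg _
    gcongr
  obtain ⟨c0, hc0, hl⟩ := lowerVar hRH
  obtain ⟨c1, hc1, hcount⟩ := count (logGrowth hR) hV hv hc0 hl (four hR) d
  obtain ⟨U, hU, hfew⟩ := few hR d (c1 / 4) (by positivity)
  obtain ⟨n1, hn1⟩ := close U (c1 / (2 * (d + 1))) hU (by positivity)
  refine ⟨c1 / 2, by positivity, ?_⟩
  have hev : ∀ᶠ N : ℕ in atTop, (n1 : ℝ) ≤ c1 / 4 * N :=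
    (tendsto_natCast_atTop_atTop.const_mul_atTop (by positivity : 0 < c1 / 4)).eventually_ge_atTop _
  filter_upwards [hcount, hfew, hev] with N h1 h2 h3 a ha b
  obtain ⟨i0, hi0⟩ := ha
  have hnorm : 1 ≤ ‖a‖ := hi0.trans (by rw [← Real.norm_eq_abs]; exact norm_le_pi_norm a i0)
  have hnpos : 0 < ‖a‖ := by linarith
  set a' : Fin (d + 1) → ℝ := (‖a‖)⁻¹ • a with ha'
  have hna' : ‖a'‖ = 1 := by
    rw [ha', norm_smul, norm_inv, norm_norm, inv_mul_cancel₀ hnpos.ne']
  set b' : ℝ := b / ‖a‖ - ∑ i, a' i with hb'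
  have h4 := h1 a' hna' b'
  set S1 := (Finset.Icc 1 N).filter (fun n => c1 ≤ |lv (fun n => dl n - 1) a' n - b'|) with hS1
  set S2 := (Finset.Icc 1 N).filter (fun n => ∃ i : Fin (d + 1), U < dlt (n + i)) with hS2
  set S3 := Finset.range n1 with hS3
  set W : Set ℕ := {n : ℕ | 1 ≤ n ∧ n ≤ N ∧
    c1 / 2 ≤ |∑ i : Fin (d + 1), a i * dlt (n + i) - b|} with hW
  have hWf : W.Finite := (Set.finite_Iic N).subset fun n hn => hn.2.1
  have hsub : S1 ⊆ (hWf.toFinset ∪ S2) ∪ S3 := by
    intro n hn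
    rw [Finset.mem_union, Finset.mem_union]
    by_cases hn3 : n < n1
    · exact Or.inr (Finset.mem_range.2 hn3)
    · by_cases hn2 : ∃ i : Fin (d + 1), U < dlt (n + i)
      · exact Or.inl (Or.inr (Finset.mem_filter.2 ⟨(Finset.mem_filter.1 hn).1, hn2⟩))
      · refine Or.inl (Or.inl ?_)
        push Not at hn2
        obtain ⟨g1, g2⟩ := Finset.mem_filter.1 hn
        rw [Finset.mem_Icc] at g1
        rw [Set.Finite.mem_toFinset]
        refine ⟨g1.1, g1.2, ?_⟩
        -- comparison
        have q1 : |∑ i : Fin (d + 1), a' i * (dlt (n + i) - dl (n + i))| ≤ c1 / 2 := by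
          have q2 : ∀ i ∈ (Finset.univ : Finset (Fin (d + 1))),
              |a' i * (dlt (n + i) - dl (n + i))| ≤ c1 / (2 * (d + 1)) := by
            intro i _
            rw [abs_mul]
            have q3 : |a' i| ≤ 1 := by
              rw [← hna', ← Real.norm_eq_abs]
              exact norm_le_pi_norm a' i
            have q4 := hn1 (n + i) (by omega) (hn2 i)
            calc |a' i| * |dlt (n + i) - dl (n + i)| ≤ 1 * (c1 / (2 * (d + 1))) :=
                  mul_le_mul q3 q4 (abs_nonneg _) zero_le_one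
              _ = _ := one_mul _
          refine (Finset.abs_sum_le_sum_abs _ _).trans ((Finset.sum_le_sum q2).trans ?_)
          rw [Finset.sum_const, Finset.card_univ, Fintype.card_fin, nsmul_eq_mul]
          push_cast
          apply le_of_eq
          field_simp
        have q2 : ∑ i : Fin (d + 1), a' i * dlt (n + i) - b / ‖a‖ =
            (lv (fun n => dl n - 1) a' n - b') +
              ∑ i : Fin (d + 1), a' i * (dlt (n + i) - dl (n + i)) := by
          rw [hb']
          unfold lv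
          simp only [mul_sub, Finset.sum_sub_distrib, mul_one]
          ring
        have q3 : c1 / 2 ≤ |∑ i : Fin (d + 1), a' i * dlt (n + i) - b / ‖a‖| := by
          rw [q2]
          have := abs_sub_abs_le_abs_sub (lv (fun n => dl n - 1) a' n - b')
            (-∑ i : Fin (d + 1), a' i * (dlt (n + i) - dl (n + i)))
          rw [abs_neg, sub_neg_eq_add] at this
          linarith
        have q4 : ∑ i : Fin (d + 1), a i * dlt (n + i) - b =
            ‖a‖ * (∑ i : Fin (d + 1), a' i * dlt (n + i) - b / ‖a‖) := by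
          rw [mul_sub, Finset.mul_sum, mul_div_cancel₀ _ hnpos.ne']
          congr 1
          refine Finset.sum_congr rfl fun i _ => ?_
          rw [ha', Pi.smul_apply, smul_eq_mul, ← mul_assoc, mul_inv_cancel_left₀ hnpos.ne']
        rw [q4, abs_mul, abs_of_pos hnpos]
        calc c1 / 2 ≤ |∑ i : Fin (d + 1), a' i * dlt (n + i) - b / ‖a‖| := q3
          _ ≤ ‖a‖ * |∑ i : Fin (d + 1), a' i * dlt (n + i) - b / ‖a‖| :=
              le_mul_of_one_le_left (abs_nonneg _) hnorm
  have hcard := (Finset.card_le_card hsub).trans ((Finset.card_union_le _ _).trans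
    (Nat.add_le_add_right (Finset.card_union_le _ _) _))
  rw [← Set.ncard_eq_toFinset_card W hWf, hS3, Finset.card_range] at hcard
  have hcard' : (S1.card : ℝ) ≤ (W.ncard : ℝ) + S2.card + n1 := by exact_mod_cast hcard
  linarith

end Pool.Agent.P8H60.GapLin
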