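import Mathlib

/-! # Sequences without approximate linear relations are far from linear recurrence sequences -/

set_option autoImplicit false

open Finset Filter

namespace Pool.Agent.P8H60.GapLin

/-- distance to linear recurrence sequences -/
theorem rec_far (δ : ℕ → ℝ) (d : ℕ) (c1 : ℝ) (hc1 : 0 < c1)
    (h : ∀ᶠ N : ℕ in atTop, ∀ a : Fin (d + 1) → ℝ, (∃ i, 1 ≤ |a i|) → ∀ b : ℝ,
      c1 * N ≤ ({n : ℕ | 1 ≤ n ∧ n ≤ N ∧
        c1 ≤ |∑ i : Fin (d + 1), a i * δ (n + i) - b|}.ncard : ℝ)) :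
    ∀ᶠ N : ℕ in atTop, ∀ (u : ℕ → ℝ) (a : Fin (d + 1) → ℝ), a ≠ 0 → ∀ b : ℝ,
      (∀ n : ℕ, 1 ≤ n → n ≤ N → ∑ i : Fin (d + 1), a i * u (n + i) = b) →
      c1 / (4 * (d + 1)) * N ≤ ({n : ℕ | 1 ≤ n ∧ n ≤ N ∧
        c1 / (4 * (d + 1)) ≤ |δ n - u n|}.ncard : ℝ) := by
  classical
  have hev : ∀ᶠ N : ℕ in atTop, ((d : ℝ) + 1) ^ 2 ≤ c1 / 2 * N :=
    (tendsto_natCast_atTop_atTop.const_mul_atTop (by positivity : 0 < c1 / 2)).eventually_ge_atTop _
  filter_upwards [h, hev] with N h1 h2 u a ha b hu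
  set c : ℝ := c1 / (4 * (d + 1)) with hc
  have hc0 : 0 < c := by positivity
  have hd0 : (0 : ℝ) ≤ d := Nat.cast_nonneg d
  have hnpos : 0 < ‖a‖ := norm_pos_iff.2 ha
  obtain ⟨i0, hi0⟩ : ∃ i, ‖a i‖ = ‖a‖ := by
    obtain ⟨i, -, hi⟩ := Finset.exists_mem_eq_sup' (s := (univ : Finset (Fin (d + 1))))
      univ_nonempty (fun i => ‖a i‖₊)
    refine ⟨i, ?_⟩
    have : ‖a‖₊ = ‖a i‖₊ := by
      rw [← hi]
      rw [Pi.nnnorm_def]
      rw [Finset.sup'_eq_sup]
    rw [← coe_nnnorm, ← coe_nnnorm, this]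
  set a' : Fin (d + 1) → ℝ := fun i => a i / ‖a‖ with ha'
  have ha1 : ∀ i, |a' i| ≤ 1 := by
    intro i
    rw [ha']
    simp only
    rw [abs_div, abs_of_pos hnpos, div_le_one hnpos]
    exact norm_le_pi_norm a i
  have h3 := h1 a' ⟨i0, by
    rw [ha']
    simp only
    rw [abs_div, abs_of_pos hnpos, ← Real.norm_eq_abs, hi0, div_self hnpos.ne']⟩ (b / ‖a‖)
  set S1 : Set ℕ := {n : ℕ | 1 ≤ n ∧ n ≤ N ∧
    c1 ≤ |∑ i : Fin (d + 1), a' i * δ (n + i) - b / ‖a‖|} with hS1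
  set W : Set ℕ := {n : ℕ | 1 ≤ n ∧ n ≤ N ∧ c ≤ |δ n - u n|} with hW
  have hWf : W.Finite := (Set.finite_Iic N).subset fun n hn => hn.2.1
  have hS1f : S1.Finite := (Set.finite_Iic N).subset fun n hn => hn.2.1
  set E : Finset ℕ := hWf.toFinset ∪ Ioc N (N + d) with hE
  have hsub : hS1f.toFinset ⊆ (univ : Finset (Fin (d + 1))).biUnion (fun i =>
      E.image (fun m => m - (i : ℕ))) := by
    intro n hn
    rw [Set.Finite.mem_toFinset] at hn
    obtain ⟨g1, g2, g3⟩ := hn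
    have g4 : ∑ i : Fin (d + 1), a' i * δ (n + i) - b / ‖a‖ =
        ∑ i : Fin (d + 1), a' i * (δ (n + i) - u (n + i)) := by
      rw [← hu n g1 g2, Finset.sum_div, ← Finset.sum_sub_distrib]
      refine Finset.sum_congr rfl fun i _ => ?_
      rw [ha']
      simp only
      ring
    rw [g4] at g3
    have g5 : ∃ i : Fin (d + 1), c ≤ |δ (n + i) - u (n + i)| := by
      by_contra hcon
      push Not at hcon
      have g6 : |∑ i : Fin (d + 1), a' i * (δ (n + i) - u (n + i))| ≤ (d + 1) * c := by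
        refine (Finset.abs_sum_le_sum_abs _ _).trans ?_
        have g7 : ∀ i ∈ (univ : Finset (Fin (d + 1))), |a' i * (δ (n + i) - u (n + i))| ≤ c := by
          intro i _
          rw [abs_mul]
          calc |a' i| * |δ (n + i) - u (n + i)| ≤ 1 * c :=
                mul_le_mul (ha1 i) (hcon i).le (abs_nonneg _) zero_le_one
            _ = c := one_mul c
        refine (Finset.sum_le_sum g7).trans ?_
        rw [Finset.sum_const, card_univ, Fintype.card_fin, nsmul_eq_mul]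
        push_cast
        exact le_rfl
      have g8 : ((d : ℝ) + 1) * c = c1 / 4 := by
        rw [hc]
        field_simp
      linarith
    obtain ⟨i, hi⟩ := g5
    rw [mem_biUnion]
    refine ⟨i, mem_univ _, mem_image.2 ⟨n + i, ?_, by omega⟩⟩
    rw [hE, mem_union, Set.Finite.mem_toFinset, mem_Ioc]
    by_cases hN : n + (i : ℕ) ≤ N
    · exact Or.inl ⟨by omega, hN, hi⟩
    · exact Or.inr ⟨by omega, by omega⟩
  have h4 := (Finset.card_le_card hsub).trans Finset.card_biUnion_le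
  have h5 : ∑ i : Fin (d + 1), (E.image (fun m => m - (i : ℕ))).card ≤ (d + 1) * (W.ncard + d) := by
    have g1 : ∀ i ∈ (univ : Finset (Fin (d + 1))), (E.image (fun m => m - (i : ℕ))).card ≤
        W.ncard + d := by
      intro i _
      refine Finset.card_image_le.trans ?_
      rw [hE]
      refine (Finset.card_union_le _ _).trans ?_
      rw [← Set.ncard_eq_toFinset_card W hWf, Nat.card_Ioc]
      omega
    refine (Finset.sum_le_sum g1).trans ?_
    rw [Finset.sum_const, card_univ, Fintype.card_fin, smul_eq_mul]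
  have h6 := h4.trans h5
  rw [← Set.ncard_eq_toFinset_card S1 hS1f] at h6
  have h7 : (S1.ncard : ℝ) ≤ (d + 1) * (W.ncard + d) := by exact_mod_cast h6
  have h8 : c1 / 2 * N ≤ (d + 1) * (W.ncard : ℝ) := by
    have : ((d : ℝ) + 1) * d ≤ (d + 1) ^ 2 := by nlinarith
    nlinarith
  have h9 : c * N = c1 / 4 * N / (d + 1) := by
    rw [hc]
    field_simp
  rw [h9, div_le_iff₀ (by positivity)]
  have hN0 : (0 : ℝ) ≤ N := Nat.cast_nonneg N
  have h10 : c1 / 4 * (N : ℝ) ≤ c1 / 2 * N := by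
    apply mul_le_mul_of_nonneg_right _ hN0
    linarith
  linarith

end Pool.Agent.P8H60.GapLin
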